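import Pool.Agent.Helper90.Aniso.Defs
import Pool.Agent.Helper90.Aniso.Data

/-!
# The explicit complex is a pseudomanifold
-/

namespace Pool.Agent.Helper90.Aniso

/-- The vertex set of a facet. -/
def fset (F : Fin 40) : Finset (Fin 11) := Finset.univ.image (fac F)

theorem mem_fset (F : Fin 40) (v : Fin 11) : v ∈ fset F ↔ ∃ j, fac F j = v := by
  simp [fset]

theorem card_fset (F : Fin 40) : (fset F).card = 4 := by
  unfold fset
  rw [Finset.card_image_of_injective _ (fac_inj F)]
  simp

theorem fset_sub {F G : Fin 40} (h : fset F ⊆ fset G) : G = F := by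
  apply fac_ne
  intro i
  exact (mem_fset G _).1 (h ((mem_fset F _).2 ⟨i, rfl⟩))

theorem fset_inj : Function.Injective fset := fun _ _ h => (fset_sub h.subset).symm

/-- The complex with the forty facets of the table. -/
def cplx : AbstractSimplicialComplex (Fin 11) where
  faces := {s | s.Nonempty ∧ ∃ F, s ⊆ fset F}
  isRelLowerSet_faces := by
    rintro s ⟨hs, F, hF⟩
    exact ⟨hs, fun t ht htn => ⟨htn, F, ht.trans hF⟩⟩
  singleton_mem := fun v => by
    refine ⟨Finset.singleton_nonempty v, baseV v, ?_⟩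
    rw [Finset.singleton_subset_iff, mem_fset]
    exact vert_mem v

theorem mem_cplx (s : Finset (Fin 11)) : s ∈ cplx.faces ↔ s.Nonempty ∧ ∃ F, s ⊆ fset F := Iff.rfl

theorem facets_cplx : facets cplx 4 = Set.range fset := by
  ext s
  constructor
  · rintro ⟨⟨_, F, hF⟩, hc⟩
    exact ⟨F, (Finset.eq_of_subset_of_card_le hF (by rw [card_fset, hc])).symm⟩
  · rintro ⟨F, rfl⟩
    refine ⟨⟨?_, F, subset_rfl⟩, card_fset F⟩
    rw [← Finset.card_pos, card_fset]
    norm_num

/-- The vertex set of a ridge. -/
def rset (F : Fin 40) (j : Fin 4) : Finset (Fin 11) :=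
  Finset.univ.image fun i : Fin 3 => fac F (j.succAbove i)

theorem facSucc_inj (F : Fin 40) (j : Fin 4) :
    Function.Injective (fun i : Fin 3 => fac F (j.succAbove i)) :=
  fun _ _ h => Fin.succAbove_right_injective (fac_inj F h)

theorem card_rset (F : Fin 40) (j : Fin 4) : (rset F j).card = 3 := by
  unfold rset
  rw [Finset.card_image_of_injective _ (facSucc_inj F j)]
  simp

theorem mem_rset (F : Fin 40) (j : Fin 4) (v : Fin 11) :
    v ∈ rset F j ↔ ∃ i : Fin 3, fac F (j.succAbove i) = v := by
  simp [rset]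

theorem rset_sub (F : Fin 40) (j : Fin 4) : rset F j ⊆ fset F := by
  intro v hv
  obtain ⟨i, hi⟩ := (mem_rset F j v).1 hv
  exact (mem_fset F v).2 ⟨_, hi⟩

theorem rset_nbr (F : Fin 40) (j : Fin 4) : rset (nbr F j) (opp F j) = rset F j := by
  ext v
  rw [mem_rset, mem_rset]
  simp only [fac_nbr]

theorem rset_sub_iff (F : Fin 40) (j : Fin 4) (G : Fin 40) :
    rset F j ⊆ fset G ↔ G = F ∨ G = nbr F j := by
  constructor
  · intro h
    apply ridge_only
    intro i
    exact (mem_fset G _).1 (h ((mem_rset F j _).2 ⟨i, rfl⟩))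
  · rintro (rfl | rfl)
    · exact rset_sub _ _
    · rw [← rset_nbr]; exact rset_sub _ _

theorem exists_rset (R : Finset (Fin 11)) (hR : R.card = 3) (F : Fin 40) (h : R ⊆ fset F) :
    ∃ j, R = rset F j := by
  have hj : ∃ j, fac F j ∉ R := by
    by_contra hcon
    push Not at hcon
    have : fset F ⊆ R := by
      intro v hv
      obtain ⟨j, rfl⟩ := (mem_fset F v).1 hv
      exact hcon j
    have := Finset.card_le_card this
    rw [card_fset, hR] at this
    omega
  obtain ⟨j, hj⟩ := hj
  refine ⟨j, Finset.eq_of_subset_of_card_le ?_ (by rw [card_rset, hR])⟩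
  intro v hv
  obtain ⟨k, rfl⟩ := (mem_fset F v).1 (h hv)
  have hkj : k ≠ j := fun hkj => hj (hkj ▸ hv)
  obtain ⟨i, hi⟩ := Fin.exists_succAbove_eq hkj
  exact (mem_rset F j _).2 ⟨i, by rw [hi]⟩

theorem inter_card (F : Fin 40) (j : Fin 4) : (fset F ∩ fset (nbr F j)).card + 1 = 4 := by
  have h1 : rset F j ⊆ fset F ∩ fset (nbr F j) :=
    Finset.subset_inter (rset_sub F j) ((rset_sub_iff F j _).2 (Or.inr rfl))
  have h2 := Finset.card_le_card h1
  rw [card_rset] at h2
  have h3 := Finset.card_le_card (Finset.inter_subset_left (s₁ := fset F) (s₂ := fset (nbr F j)))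
  rw [card_fset] at h3
  have h4 : (fset F ∩ fset (nbr F j)).card ≠ 4 := by
    intro h
    have h5 := Finset.eq_of_subset_of_card_le
      (Finset.inter_subset_left (s₁ := fset F) (s₂ := fset (nbr F j))) (by rw [h, card_fset])
    have h6 : fset F ⊆ fset (nbr F j) := by
      rw [← h5]; exact Finset.inter_subset_right
    exact (nbr_nbr F j).2.2 (fset_sub h6)
  omega

/-- Adjacency of facets. -/
def adj (A B : Finset (Fin 11)) : Prop :=
  A ∈ facets cplx 4 ∧ B ∈ facets cplx 4 ∧ (A ∩ B).card + 1 = 4

theorem adj_nbr (F : Fin 40) (j : Fin 4) : adj (fset F) (fset (nbr F j)) := by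
  refine ⟨?_, ?_, inter_card F j⟩ <;> rw [facets_cplx]
  · exact ⟨F, rfl⟩
  · exact ⟨_, rfl⟩

theorem adj_symm {A B : Finset (Fin 11)} (h : adj A B) : adj B A :=
  ⟨h.2.1, h.1, by rw [Finset.inter_comm]; exact h.2.2⟩

theorem conn_zero (m : ℕ) : ∀ F, depF F = m → Relation.ReflTransGen adj (fset F) (fset 0) := by
  induction m using Nat.strong_induction_on with
  | _ m ih =>
    intro F hF
    rcases fsg_tree F with h | ⟨h, _⟩
    · rw [h]
    · exact Relation.ReflTransGen.head (adj_nbr F (nxtF F)) (ih _ (hF ▸ h) _ rfl)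

theorem conn_all (F G : Fin 40) : Relation.ReflTransGen adj (fset F) (fset G) := by
  refine (conn_zero _ F rfl).trans ?_
  have hrev : ∀ {A B : Finset (Fin 11)}, Relation.ReflTransGen adj A B →
      Relation.ReflTransGen adj B A := by
    intro A B h
    induction h with
    | refl => exact Relation.ReflTransGen.refl
    | tail _ h2 ih => exact Relation.ReflTransGen.head (adj_symm h2) ih
  exact hrev (conn_zero _ G rfl)

theorem cplx_pseudo : IsPseudomanifold cplx 4 where
  nonempty := ⟨fset 0, by rw [facets_cplx]; exact ⟨0, rfl⟩⟩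
  pure := by
    rintro s ⟨_, F, hF⟩
    exact ⟨fset F, by rw [facets_cplx]; exact ⟨F, rfl⟩, hF⟩
  ridge := by
    intro R hR hex
    obtain ⟨T, hT, hRT⟩ := hex
    rw [facets_cplx] at hT
    obtain ⟨F, rfl⟩ := hT
    obtain ⟨j, rfl⟩ := exists_rset R (by omega) F hRT
    have : {T | T ∈ facets cplx 4 ∧ rset F j ⊆ T} = {fset F, fset (nbr F j)} := by
      ext T
      rw [facets_cplx]
      constructor
      · rintro ⟨⟨G, rfl⟩, h⟩
        rcases (rset_sub_iff F j G).1 h with rfl | rfl
        · exact Or.inl rfl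
        · exact Or.inr rfl
      · rintro (rfl | rfl)
        · exact ⟨⟨F, rfl⟩, rset_sub F j⟩
        · exact ⟨⟨_, rfl⟩, (rset_sub_iff F j _).2 (Or.inr rfl)⟩
    rw [this, Set.ncard_pair]
    intro h
    exact (nbr_nbr F j).2.2 (fset_inj h).symm
  connected := by
    intro A hA B hB
    rw [facets_cplx] at hA hB
    obtain ⟨F, rfl⟩ := hA
    obtain ⟨G, rfl⟩ := hB
    exact conn_all F G

theorem insert_rset (F : Fin 40) (j : Fin 4) : insert (fac F j) (rset F j) = fset F := by
  ext v
  rw [Finset.mem_insert, mem_rset, mem_fset]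
  constructor
  · rintro (rfl | ⟨i, rfl⟩)
    · exact ⟨j, rfl⟩
    · exact ⟨_, rfl⟩
  · rintro ⟨k, rfl⟩
    by_cases hk : k = j
    · left; rw [hk]
    · right
      obtain ⟨i, hi⟩ := Fin.exists_succAbove_eq hk
      exact ⟨i, by rw [hi]⟩

theorem notMem_rset (F : Fin 40) (j : Fin 4) : fac F j ∉ rset F j := by
  rw [mem_rset]
  rintro ⟨i, hi⟩
  exact Fin.succAbove_ne j i (fac_inj F hi)

theorem count_rset (F : Fin 40) (j : Fin 4) :
    ((rset F j).filter (· < fac F j)).card = j.val := by
  have h1 : (rset F j).filter (· < fac F j) =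
      (Finset.univ.filter fun i : Fin 3 => j.succAbove i < j).image
        (fun i => fac F (j.succAbove i)) := by
    ext v
    simp only [Finset.mem_filter, mem_rset, Finset.mem_image, Finset.mem_univ, true_and]
    constructor
    · rintro ⟨⟨i, rfl⟩, h⟩
      exact ⟨i, (fac_mono F).lt_iff_lt.1 h, rfl⟩
    · rintro ⟨i, h, rfl⟩
      exact ⟨⟨i, rfl⟩, fac_mono F h⟩
  rw [h1, Finset.card_image_of_injective _ (facSucc_inj F j)]
  clear h1
  revert j
  decide

/-- The fundamental cycle. -/
def muF (K : Type*) [Field K] (T : Finset (Fin 11)) : K :=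
  ∑ G, if fset G = T then (ori G : K) else 0

theorem muF_zero (K : Type*) [Field K] (T : Finset (Fin 11)) (h : ∀ G, fset G ≠ T) :
    muF K T = 0 := by
  unfold muF
  simp [h]

theorem muF_fset (K : Type*) [Field K] (G : Fin 40) : muF K (fset G) = ori G := by
  unfold muF
  rw [Finset.sum_eq_single G]
  · simp
  · intro G' _ hG
    rw [if_neg (fun h => hG (fset_inj h))]
  · simp

theorem cplx_class (K : Type*) [Field K] : HasFundamentalClass K cplx 4 := by
  refine ⟨muF K, ?_, ⟨fset 0, ?_⟩, ?_⟩
  · intro T hT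
    rw [facets_cplx] at hT
    exact muF_zero K T fun G h => hT ⟨G, h⟩
  · rw [muF_fset]
    intro h
    have h1 : (ori 0 : K) * ori 0 = 1 := by rw [← Int.cast_mul, ori_sq, Int.cast_one]
    rw [h, zero_mul] at h1
    exact zero_ne_one h1
  · intro R hR
    by_cases hex : ∃ F, R ⊆ fset F
    · obtain ⟨F, hF⟩ := hex
      obtain ⟨j, rfl⟩ := exists_rset R (by omega) F hF
      have hne : fac F j ≠ fac (nbr F j) (opp F j) := by
        intro h
        apply (nbr_nbr F j).2.2
        apply fset_inj
        rw [← insert_rset F j, ← insert_rset (nbr F j) (opp F j), rset_nbr, h]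
      rw [← Finset.sum_subset (s₁ := {fac F j, fac (nbr F j) (opp F j)})]
      · rw [Finset.sum_pair hne]
        have h1 : insert (fac (nbr F j) (opp F j)) (rset F j) = fset (nbr F j) := by
          rw [← insert_rset (nbr F j) (opp F j), rset_nbr]
        have h2 : ((rset F j).filter (· < fac (nbr F j) (opp F j))).card = (opp F j).val := by
          rw [← count_rset (nbr F j) (opp F j), rset_nbr]
        rw [insert_rset, h1, h2, count_rset, muF_fset, muF_fset]
        exact_mod_cast congrArg (Int.cast : ℤ → K) (ori_nbr F j)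
      · intro v hv
        rw [Finset.mem_compl]
        rcases Finset.mem_insert.1 hv with rfl | hv
        · exact notMem_rset F j
        · rw [Finset.mem_singleton.1 hv, ← rset_nbr]
          exact notMem_rset _ _
      · intro v hv hv2
        rw [muF_zero, mul_zero]
        intro G h
        have hsub : rset F j ⊆ fset G := by rw [h]; exact Finset.subset_insert _ _
        rw [Finset.mem_compl] at hv
        rw [Finset.mem_insert, Finset.mem_singleton, not_or] at hv2
        have hvG : v ∈ fset G := by rw [h]; exact Finset.mem_insert_self _ _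
        rcases (rset_sub_iff F j G).1 hsub with rfl | rfl
        · rw [← insert_rset G j, Finset.mem_insert] at hvG
          rcases hvG with hvG | hvG
          · exact hv2.1 hvG
          · exact hv hvG
        · rw [← insert_rset (nbr F j) (opp F j), Finset.mem_insert, rset_nbr] at hvG
          rcases hvG with hvG | hvG
          · exact hv2.2 hvG
          · exact hv hvG
    · refine Finset.sum_eq_zero fun v _ => ?_
      rw [muF_zero, mul_zero]
      intro G h
      exact hex ⟨G, by rw [h]; exact Finset.subset_insert _ _⟩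

end Pool.Agent.Helper90.Aniso
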