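import Mathlib

/-!
# Artinian reductions of face rings and anisotropy

Definitions for the question whether every pseudomanifold has a totally anisotropic Artinian
reduction in characteristic different from two.
-/

namespace Pool.Agent.Helper90.Aniso

open MvPolynomial

variable {n : ℕ}

/-- The facets of a simplicial complex of dimension `d - 1`: the faces with `d` vertices. -/
def facets (S : AbstractSimplicialComplex (Fin n)) (d : ℕ) : Set (Finset (Fin n)) :=
  {F | F ∈ S.faces ∧ F.card = d}

/-- `S` is a `(d - 1)`-dimensional pseudomanifold: it is pure of dimension `d - 1`, every face with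
`d - 1` vertices lies in exactly two facets, and any two facets are joined by a chain of facets in
which consecutive ones share `d - 1` vertices. -/
structure IsPseudomanifold (S : AbstractSimplicialComplex (Fin n)) (d : ℕ) : Prop where
  nonempty : (facets S d).Nonempty
  pure : ∀ s ∈ S.faces, ∃ F ∈ facets S d, s ⊆ F
  ridge : ∀ R : Finset (Fin n), R.card + 1 = d → (∃ F ∈ facets S d, R ⊆ F) →
    {F | F ∈ facets S d ∧ R ⊆ F}.ncard = 2
  connected : ∀ F ∈ facets S d, ∀ G ∈ facets S d,
    Relation.ReflTransGen (fun A B => A ∈ facets S d ∧ B ∈ facets S d ∧ (A ∩ B).card + 1 = d) F G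

/-- `H_{d-1}(S; K) ≠ 0` for a complex `S` of dimension `d - 1`: there is a nonzero simplicial
`(d - 1)`-cycle `μ` with coefficients in `K`. Faces are oriented by the order of `Fin n`, so the
incidence number of `R` in `insert v R` is `(-1) ^ #{w ∈ R | w < v}`. -/
def HasFundamentalClass (K : Type*) [Field K] (S : AbstractSimplicialComplex (Fin n))
    (d : ℕ) : Prop :=
  ∃ μ : Finset (Fin n) → K, (∀ F, F ∉ facets S d → μ F = 0) ∧ (∃ F, μ F ≠ 0) ∧
    ∀ R : Finset (Fin n), R.card + 1 = d →
      ∑ v ∈ Rᶜ, (-1) ^ (R.filter (· < v)).card * μ (insert v R) = 0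

section ring

variable {K : Type*} [Field K]

/-- The ideal of non-faces: it is generated by the monomials `∏_{v ∈ s} x_v` with `s ∉ S`. -/
noncomputable def faceIdeal (K : Type*) [Field K] (S : AbstractSimplicialComplex (Fin n)) :
    Ideal (MvPolynomial (Fin n) K) :=
  Ideal.span {p | ∃ s : Finset (Fin n), s.Nonempty ∧ s ∉ S.faces ∧ p = ∏ v ∈ s, X v}

/-- The linear form `∑ c_v x_v`. -/
noncomputable def linForm (c : Fin n → K) : MvPolynomial (Fin n) K :=
  ∑ v, C (c v) * X v

/-- The ideal generated by the ideal of non-faces and the linear forms `θ_i = ∑ a_{i,v} x_v`. -/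
noncomputable def relIdeal {d : ℕ} (S : AbstractSimplicialComplex (Fin n)) (a : Fin d → Fin n → K) :
    Ideal (MvPolynomial (Fin n) K) :=
  faceIdeal K S ⊔ Ideal.span (Set.range fun i => linForm (a i))

/-- The quotient `A = K[S] / (θ_1, …, θ_d)` of the face ring `K[S]`, for
`θ_i = ∑ a_{i,v} x_v`. -/
def Reduction {d : ℕ} (S : AbstractSimplicialComplex (Fin n)) (a : Fin d → Fin n → K) : Type _ :=
  MvPolynomial (Fin n) K ⧸ relIdeal S a

noncomputable instance instCommRingReduction {d : ℕ} (S : AbstractSimplicialComplex (Fin n))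
    (a : Fin d → Fin n → K) : CommRing (Reduction S a) :=
  Ideal.Quotient.commRing (relIdeal S a)

noncomputable instance instAlgebraReduction {d : ℕ} (S : AbstractSimplicialComplex (Fin n))
    (a : Fin d → Fin n → K) : Algebra K (Reduction S a) :=
  Ideal.Quotient.algebra K

/-- The quotient map from the polynomial ring to `A`. -/
noncomputable def toReduction {d : ℕ} (S : AbstractSimplicialComplex (Fin n))
    (a : Fin d → Fin n → K) : MvPolynomial (Fin n) K →ₐ[K] Reduction S a :=
  Ideal.Quotient.mkₐ K (relIdeal S a)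

/-- The graded piece `A^j`. -/
noncomputable def gr {d : ℕ} (S : AbstractSimplicialComplex (Fin n)) (a : Fin d → Fin n → K)
    (j : ℕ) : Submodule K (Reduction S a) :=
  (homogeneousSubmodule (Fin n) K j).map (toReduction S a).toLinearMap

/-- `θ_1, …, θ_d` is a linear system of parameters: `A` is a finite dimensional vector space. -/
def IsLinearSOP {d : ℕ} (S : AbstractSimplicialComplex (Fin n)) (a : Fin d → Fin n → K) : Prop :=
  Module.Finite K (Reduction S a)

/-- The top degree piece `A^d` is a line. -/
def TopIsLine {d : ℕ} (S : AbstractSimplicialComplex (Fin n)) (a : Fin d → Fin n → K) : Prop :=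
  Module.finrank K (gr S a d) = 1

/-- Some `u ∈ A^j` has `u ^ 2 = 0` in `A` although `u * v ≠ 0` for some `v ∈ A^{d-j}`. -/
def HasIsotropic {d : ℕ} (S : AbstractSimplicialComplex (Fin n)) (a : Fin d → Fin n → K)
    (j : ℕ) : Prop :=
  ∃ u ∈ gr S a j, u ^ 2 = 0 ∧ ∃ v ∈ gr S a (d - j), u * v ≠ 0

/-- The linear functional `ε` is not zero on `A^d`. -/
def NonzeroOnTop {d : ℕ} {S : AbstractSimplicialComplex (Fin n)} {a : Fin d → Fin n → K}
    (ε : Reduction S a →ₗ[K] K) : Prop :=
  ∃ w ∈ gr S a d, ε w ≠ 0

/-- The degree `j` part `L^j` of the ideal `L` of elements that pair to zero with everything, the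
pairing being `A^j × A^{d-j} → A^d → K` for a linear functional `ε` (in the problem, evaluation at
the fundamental class). -/
def InRadical {d : ℕ} {S : AbstractSimplicialComplex (Fin n)} {a : Fin d → Fin n → K}
    (ε : Reduction S a →ₗ[K] K) (j : ℕ) (u : Reduction S a) : Prop :=
  u ∈ gr S a j ∧ ∀ v ∈ gr S a (d - j), ε (u * v) = 0

/-- Total anisotropy of `B = A / L`: for `2 j ≤ d`, an element of `A^j` that is nonzero in `B^j` has
nonzero square in `B^{2j}`. -/
def TotallyAnisotropic {d : ℕ} {S : AbstractSimplicialComplex (Fin n)} {a : Fin d → Fin n → K}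
    (ε : Reduction S a →ₗ[K] K) : Prop :=
  ∀ j, 2 * j ≤ d → ∀ u ∈ gr S a j, ¬ InRadical ε j u → ¬ InRadical ε (2 * j) (u ^ 2)

end ring

end Pool.Agent.Helper90.Aniso
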