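import Pool.Agent.Helper90.Aniso.Ring

/-!
# The degree functional
-/

namespace Pool.Agent.Helper90.Aniso

open Matrix MvPolynomial

variable {K : Type*} [Field K]

theorem exists_prod_X (k : ℕ) (s : Fin 11 →₀ ℕ) (hs : s.degree = k) :
    ∃ f : Fin k → Fin 11, (monomial s 1 : MvPolynomial (Fin 11) K) = ∏ i, X (f i) := by
  induction k generalizing s with
  | zero =>
    refine ⟨fun i => i.elim0, ?_⟩
    have : s = 0 := (Finsupp.degree_eq_zero_iff s).1 hs
    rw [this]
    simp
  | succ k ih =>
    have hne : s ≠ 0 := by
      rintro rfl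
      simp at hs
    obtain ⟨v, hv⟩ := Finsupp.ne_iff.1 hne
    rw [Finsupp.zero_apply] at hv
    have hle : Finsupp.single v 1 ≤ s := by
      rw [Finsupp.single_le_iff]
      omega
    have hsplit : Finsupp.single v 1 + (s - Finsupp.single v 1) = s := add_tsub_cancel_of_le hle
    have hdeg : (s - Finsupp.single v 1).degree = k := by
      have := congrArg Finsupp.degree hsplit
      rw [map_add, hs, Finsupp.degree_single] at this
      omega
    obtain ⟨f, hf⟩ := ih _ hdeg
    refine ⟨Fin.cons v f, ?_⟩
    rw [Fin.prod_univ_succ]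
    simp only [Fin.cons_zero, Fin.cons_succ]
    rw [← hf, X, monomial_mul, hsplit, one_mul]

/-- A linear map vanishing on products of `k` variables vanishes on forms of degree `k`. -/
theorem ext_hom {M : Type*} [AddCommMonoid M] [Module K M] (φ : MvPolynomial (Fin 11) K →ₗ[K] M)
    (k : ℕ) (h : ∀ f : Fin k → Fin 11, φ (∏ i, X (f i)) = 0) (q : MvPolynomial (Fin 11) K)
    (hq : q.IsHomogeneous k) : φ q = 0 := by
  rw [q.as_sum, map_sum]
  refine Finset.sum_eq_zero fun s hs => ?_
  have hdeg : s.degree = k := by
    have h1 := hq (mem_support_iff.1 hs)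
    rw [Finsupp.degree_eq_weight_one]
    exact h1
  obtain ⟨f, hf⟩ := exists_prod_X (K := K) k s hdeg
  have : monomial s (coeff s q) = coeff s q • (monomial s 1 : MvPolynomial (Fin 11) K) := by
    rw [smul_monomial, smul_eq_mul, mul_one]
  rw [this, map_smul, hf, h, smul_zero]

theorem span_kill {M : Type*} [AddCommMonoid M] [Module K M]
    (φ : MvPolynomial (Fin 11) K →ₗ[K] M) (S : Set (MvPolynomial (Fin 11) K))
    (hS : ∀ g ∈ S, ∀ q, φ (q * g) = 0) (p : MvPolynomial (Fin 11) K) (hp : p ∈ Ideal.span S) :
    φ p = 0 := by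
  have : ∀ q, φ (q * p) = 0 := by
    induction hp using Submodule.span_induction with
    | mem g hg => exact hS g hg
    | zero => intro q; rw [mul_zero, map_zero]
    | add y z _ _ hy hz => intro q; rw [mul_add, map_add, hy, hz, add_zero]
    | smul r y _ hy => intro q; rw [smul_eq_mul, ← mul_assoc]; exact hy _
  have h1 := this 1
  rwa [one_mul] at h1

variable {L : Type*} [Field L] [Algebra K L] (a : Fin 4 → Fin 11 → K) (x : Fin 4 → L)

/-- The coefficients in the extension field. -/
def ext (L : Type*) [Field L] [Algebra K L] (a : Fin 4 → Fin 11 → K) (i : Fin 4) (v : Fin 11) : L :=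
  algebraMap K L (a i v)

/-- The degree functional, with values in the extension field. -/
noncomputable def dg : MvPolynomial (Fin 11) K →ₗ[K] L :=
  (∑ F, (kap (ext L a) x F) • (aeval (cov (ext L a) x F)).toLinearMap) ∘ₗ homogeneousComponent 4

theorem dg_apply (p : MvPolynomial (Fin 11) K) : dg a x p =
    ∑ F, kap (ext L a) x F * aeval (cov (ext L a) x F) (homogeneousComponent 4 p) := by
  simp [dg]

theorem dg_mul (g : MvPolynomial (Fin 11) K) (e : ℕ) (hg : g.IsHomogeneous e)
    (hk : ∀ i, i + e = 4 → ∀ q : MvPolynomial (Fin 11) K, q.IsHomogeneous i →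
      ∑ F, kap (ext L a) x F * aeval (cov (ext L a) x F) (q * g) = 0)
    (q : MvPolynomial (Fin 11) K) : dg a x (q * g) = 0 := by
  rw [← q.sum_homogeneousComponent, Finset.sum_mul, map_sum]
  refine Finset.sum_eq_zero fun i _ => ?_
  have hi : (homogeneousComponent i q).IsHomogeneous i := homogeneousComponent_isHomogeneous i q
  have hm : homogeneousComponent i q * g ∈ homogeneousSubmodule (Fin 11) K (i + e) :=
    hi.mul hg
  rw [dg_apply, homogeneousComponent_of_mem hm]
  by_cases h4 : 4 = i + e
  · rw [if_pos h4]
    exact hk i h4.symm _ hi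
  · rw [if_neg h4]
    simp

theorem cubic (hgd : Good (ext L a) x) (q : MvPolynomial (Fin 11) K) (hq : q.IsHomogeneous 3) :
    ∑ F, (ori F : L) / (∏ j, co (ext L a) x F j) * aeval (cov (ext L a) x F) q = 0 := by
  have h := ext_hom (∑ F, ((ori F : L) / (∏ j, co (ext L a) x F j)) •
    (aeval (R := K) (cov (ext L a) x F)).toLinearMap) 3 (by
      intro f
      have h1 := csum_zero (ext L a) x hgd f
      unfold csum at h1
      simp only [LinearMap.sum_apply, LinearMap.smul_apply, AlgHom.toLinearMap_apply, map_prod,
        aeval_X, smul_eq_mul]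
      exact h1) q hq
  simpa [LinearMap.sum_apply] using h

theorem dg_rel (hgd : Good (ext L a) x) (p : MvPolynomial (Fin 11) K)
    (hp : p ∈ relIdeal cplx a) : dg a x p = 0 := by
  obtain ⟨p1, hp1, p2, hp2, rfl⟩ := Submodule.mem_sup.1 hp
  rw [map_add, span_kill (dg a x) _ ?_ p1 hp1, span_kill (dg a x) _ ?_ p2 hp2, add_zero]
  · rintro _ ⟨i, rfl⟩ q
    refine dg_mul a x _ 1 ?_ ?_ q
    · unfold linForm
      apply IsHomogeneous.sum
      intro v _
      have := (isHomogeneous_C (Fin 11) (a i v)).mul (isHomogeneous_X K v)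
      rwa [zero_add] at this
    · intro k hk q hq
      have hk3 : k = 3 := by omega
      subst hk3
      have hlin : ∀ F, aeval (cov (ext L a) x F) (linForm (a i)) =
          (facM (ext L a) F).det * x i := by
        intro F
        unfold linForm
        rw [map_sum]
        have h1 : ∀ v, aeval (cov (ext L a) x F) (C (a i v) * X v) =
            ext L a i v * cov (ext L a) x F v := by
          intro v
          rw [map_mul, aeval_X, aeval_C]
          rfl
        simp only [h1]
        rw [sum_cov]
        exact co_sum _ _ _ _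
      have hc := cubic a x hgd q hq
      have : ∀ F, kap (ext L a) x F * aeval (cov (ext L a) x F) (q * linForm (a i)) =
          x i * ((ori F : L) / (∏ j, co (ext L a) x F j) * aeval (cov (ext L a) x F) q) := by
        intro F
        have hd := hgd.det_ne F
        have hpn : ∏ j, co (ext L a) x F j ≠ 0 :=
          Finset.prod_ne_zero_iff.2 fun i _ => hgd.co_ne _ _
        rw [map_mul, hlin]
        unfold kap
        field_simp
      simp only [this]
      rw [← Finset.mul_sum, hc, mul_zero]
  · rintro _ ⟨s, hs, hns, rfl⟩ q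
    refine dg_mul a x _ s.card ?_ ?_ q
    · have := IsHomogeneous.prod s (fun v => (X v : MvPolynomial (Fin 11) K)) (fun _ => 1)
        (fun v _ => isHomogeneous_X K v)
      simpa using this
    · intro k _ q _
      refine Finset.sum_eq_zero fun F _ => ?_
      have hz : ∏ v ∈ s, cov (ext L a) x F v = 0 := by
        by_contra hne
        rw [← ne_eq, Finset.prod_ne_zero_iff] at hne
        apply hns
        refine ⟨hs, F, fun v hv => ?_⟩
        rw [mem_fset]
        by_contra hcon
        push Not at hcon
        exact hne v hv (cov_zero _ _ _ _ hcon)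
      rw [map_mul, map_prod]
      simp only [aeval_X]
      rw [hz, mul_zero, mul_zero]

theorem dg_prod (f : Fin 4 → Fin 11) : dg a x (∏ i, X (f i)) =
    ∑ F, kap (ext L a) x F * ∏ i, cov (ext L a) x F (f i) := by
  have h : (∏ i, X (f i) : MvPolynomial (Fin 11) K) ∈ homogeneousSubmodule (Fin 11) K 4 := by
    have := IsHomogeneous.prod Finset.univ (fun i => (X (f i) : MvPolynomial (Fin 11) K))
      (fun _ => 1) (fun i _ => isHomogeneous_X K (f i))
    simpa using this
  rw [dg_apply, homogeneousComponent_of_mem h, if_pos rfl]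
  simp only [map_prod, aeval_X]

theorem dg_facet (G : Fin 40) : dg a x (∏ i, X (fac G i)) =
    kap (ext L a) x G * ∏ i, co (ext L a) x G i := by
  rw [dg_prod, Finset.sum_eq_single G]
  · simp only [cov_fac]
  · intro F _ hF
    rw [prod_cov_zero _ _ _ F (fun h => hF (fac_ne G F h)), mul_zero]
  · simp

end Pool.Agent.Helper90.Aniso
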