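import Pool.Agent.Helper90.Aniso.Deg

/-!
# Descent of isotropy from the rational function field, and systems of parameters
-/

namespace Pool.Agent.Helper90.Aniso

open Polynomial

variable {K : Type*} [Field K]

theorem descent_poly {ι : Type*} [Fintype ι] (γ : ι → ι → K) (hγ : ∀ p q, γ p q = γ q p) (N : ℕ) :
    ∀ c : ι → K[X], (∀ p, (c p).natDegree ≤ N) →
      (∑ p, ∑ q, c p * c q * C (γ p q) = 0) → (∃ q, ∑ p, c p * C (γ p q) ≠ 0) →
      ∃ c₀ : ι → K, (∑ p, ∑ q, c₀ p * c₀ q * γ p q = 0) ∧ ∃ q, ∑ p, c₀ p * γ p q ≠ 0 := by
  induction N with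
  | zero =>
    intro c hc h1 h2
    have hcc : ∀ p, c p = C ((c p).coeff 0) := fun p =>
      eq_C_of_natDegree_le_zero (hc p)
    refine ⟨fun p => (c p).coeff 0, ?_, ?_⟩
    · have h3 := congrArg (fun r => coeff r 0) h1
      simp only [finsetSum_coeff, mul_coeff_zero, coeff_C_zero, coeff_zero] at h3
      exact h3
    · obtain ⟨q, hq⟩ := h2
      refine ⟨q, fun h => hq ?_⟩
      calc ∑ p, c p * C (γ p q) = ∑ p, C ((c p).coeff 0) * C (γ p q) :=
            Finset.sum_congr rfl fun p _ => by rw [← hcc p]
        _ = C (∑ p, (c p).coeff 0 * γ p q) := by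
            rw [map_sum]
            refine Finset.sum_congr rfl fun p _ => by rw [C_mul]
        _ = 0 := by rw [h, C_0]
  | succ N ih =>
    intro c hc h1 h2
    set l : ι → K := fun p => (c p).coeff (N + 1) with hl
    by_cases hrad : ∃ q, ∑ p, l p * γ p q ≠ 0
    · refine ⟨l, ?_, hrad⟩
      have h3 := congrArg (fun r => coeff r ((N + 1) + (N + 1))) h1
      simp only [finsetSum_coeff, coeff_mul_C, coeff_zero] at h3
      rw [← h3]
      refine Finset.sum_congr rfl fun p _ => Finset.sum_congr rfl fun q _ => ?_
      rw [coeff_mul_add_eq_of_natDegree_le (hc p) (hc q)]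
    · push Not at hrad
      set c' : ι → K[X] := fun p => c p - C (l p) * X ^ (N + 1) with hc'
      have hN : ∀ q, ∑ p, c' p * C (γ p q) = ∑ p, c p * C (γ p q) := by
        intro q
        have h3 : ∑ p, C (l p) * X ^ (N + 1) * C (γ p q) = 0 := by
          calc ∑ p, C (l p) * X ^ (N + 1) * C (γ p q) = C (∑ p, l p * γ p q) * X ^ (N + 1) := by
                rw [map_sum, Finset.sum_mul]
                refine Finset.sum_congr rfl fun p _ => ?_
                rw [C_mul]; ring
            _ = 0 := by rw [hrad, C_0, zero_mul]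
        simp only [hc', sub_mul, Finset.sum_sub_distrib]
        rw [h3, sub_zero]
      apply ih c'
      · intro p
        rw [natDegree_le_iff_coeff_eq_zero]
        intro m hm
        simp only [hc', coeff_sub, coeff_C_mul, coeff_X_pow]
        by_cases hmN : m = N + 1
        · subst hmN
          simp [hl]
        · rw [if_neg hmN, mul_zero, sub_zero]
          exact coeff_eq_zero_of_natDegree_lt (lt_of_le_of_lt (hc p) (by omega))
      · have e1 : ∀ d : ι → K[X], ∑ p, ∑ q, d p * d q * C (γ p q) =
            ∑ q, d q * ∑ p, d p * C (γ p q) := by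
          intro d
          rw [Finset.sum_comm]
          refine Finset.sum_congr rfl fun q _ => ?_
          rw [Finset.mul_sum]
          refine Finset.sum_congr rfl fun p _ => by ring
        rw [e1]
        simp only [hN]
        rw [e1] at h1
        have e2 : ∑ q, C (l q) * X ^ (N + 1) * ∑ p, c p * C (γ p q) = 0 := by
          simp only [Finset.mul_sum]
          rw [Finset.sum_comm]
          refine Finset.sum_eq_zero fun p _ => ?_
          calc ∑ q, C (l q) * X ^ (N + 1) * (c p * C (γ p q))
              = C (∑ q, l q * γ q p) * (X ^ (N + 1) * c p) := by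
                rw [map_sum, Finset.sum_mul]
                refine Finset.sum_congr rfl fun q _ => ?_
                rw [C_mul, hγ p q]; ring
            _ = 0 := by rw [hrad, C_0, zero_mul]
        simp only [hc', sub_mul, Finset.sum_sub_distrib]
        rw [h1, e2, sub_zero]
      · obtain ⟨q, hq⟩ := h2
        exact ⟨q, by rw [hN]; exact hq⟩

theorem descent {ι : Type*} [Fintype ι] (γ : ι → ι → K) (hγ : ∀ p q, γ p q = γ q p)
    (c : ι → FractionRing K[X])
    (h1 : ∑ p, ∑ q, c p * c q * algebraMap K (FractionRing K[X]) (γ p q) = 0)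
    (h2 : ∃ q, ∑ p, c p * algebraMap K (FractionRing K[X]) (γ p q) ≠ 0) :
    ∃ c₀ : ι → K, (∑ p, ∑ q, c₀ p * c₀ q * γ p q = 0) ∧ ∃ q, ∑ p, c₀ p * γ p q ≠ 0 := by
  obtain ⟨b, hb⟩ := IsLocalization.exist_integer_multiples_of_finite (nonZeroDivisors K[X]) c
  choose d hd using hb
  have hbne : algebraMap K[X] (FractionRing K[X]) b ≠ 0 := by
    intro h
    have := (IsFractionRing.injective K[X] (FractionRing K[X])) (h.trans (map_zero _).symm)
    exact nonZeroDivisors.ne_zero b.2 this
  have hd' : ∀ p, algebraMap K[X] (FractionRing K[X]) (d p) =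
      algebraMap K[X] (FractionRing K[X]) b * c p := by
    intro p
    rw [hd p, Algebra.smul_def]
  have hC : ∀ r : K, algebraMap K (FractionRing K[X]) r =
      algebraMap K[X] (FractionRing K[X]) (C r) := by
    intro r
    rw [IsScalarTower.algebraMap_apply K K[X] (FractionRing K[X])]
    rfl
  apply descent_poly γ hγ (Finset.univ.sup fun p => (d p).natDegree) d
  · intro p
    exact Finset.le_sup (f := fun p => (d p).natDegree) (Finset.mem_univ p)
  · apply IsFractionRing.injective K[X] (FractionRing K[X])
    rw [map_zero, map_sum]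
    have : ∀ p, algebraMap K[X] (FractionRing K[X]) (∑ q, d p * d q * C (γ p q)) =
        (algebraMap K[X] (FractionRing K[X]) b) ^ 2 *
          ∑ q, c p * c q * algebraMap K (FractionRing K[X]) (γ p q) := by
      intro p
      rw [map_sum, Finset.mul_sum]
      refine Finset.sum_congr rfl fun q _ => ?_
      rw [map_mul, map_mul, hd', hd', hC]
      ring
    simp only [this]
    rw [← Finset.mul_sum, h1, mul_zero]
  · obtain ⟨q, hq⟩ := h2
    refine ⟨q, fun h => hq ?_⟩
    have h3 := congrArg (algebraMap K[X] (FractionRing K[X])) h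
    rw [map_zero, map_sum] at h3
    have : ∀ p, algebraMap K[X] (FractionRing K[X]) (d p * C (γ p q)) =
        (algebraMap K[X] (FractionRing K[X]) b) *
          (c p * algebraMap K (FractionRing K[X]) (γ p q)) := by
      intro p
      rw [map_mul, hd', hC]
      ring
    simp only [this] at h3
    rw [← Finset.mul_sum] at h3
    exact (mul_eq_zero.1 h3).resolve_left hbne

/-- The auxiliary vector `(1, t, t², t³)`. -/
noncomputable def xi (K : Type*) [Field K] (i : Fin 4) : FractionRing K[X] :=
  algebraMap K[X] (FractionRing K[X]) (X ^ i.val)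

theorem good_xi (a : Fin 4 → Fin 11 → K) (hd : ∀ F, (facM a F).det ≠ 0) :
    Good (ext (FractionRing K[X]) a) (xi K) := by
  have hmat : ∀ F, facM (ext (FractionRing K[X]) a) F =
      (algebraMap K (FractionRing K[X])).mapMatrix (facM a F) := by
    intro F
    ext i j
    rfl
  have hdet : ∀ F, (facM (ext (FractionRing K[X]) a) F).det =
      algebraMap K (FractionRing K[X]) (facM a F).det := by
    intro F
    rw [hmat, ← RingHom.map_det]
  refine ⟨fun F h => ?_, fun F j h => ?_⟩
  · rw [hdet] at h
    exact hd F ((FaithfulSMul.algebraMap_injective K (FractionRing K[X])) (h.trans (map_zero _).symm))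
  · unfold co at h
    rw [Matrix.cramer_eq_adjugate_mulVec, hmat, ← RingHom.map_adjugate] at h
    have h1 : algebraMap K[X] (FractionRing K[X])
        (∑ i : Fin 4, C ((facM a F).adjugate j i) * X ^ i.val) = 0 := by
      rw [← h, map_sum]
      change _ = ∑ i, algebraMap K (FractionRing K[X]) ((facM a F).adjugate j i) * xi K i
      refine Finset.sum_congr rfl fun i _ => ?_
      rw [map_mul]
      unfold xi
      rw [IsScalarTower.algebraMap_apply K K[X] (FractionRing K[X])]
      rfl
    have h2 := (IsFractionRing.injective K[X] (FractionRing K[X])) (h1.trans (map_zero _).symm)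
    have h3 : ∀ i, (facM a F).adjugate j i = 0 := by
      intro i
      have h4 := congrArg (fun r => coeff r i.val) h2
      simp only [finsetSum_coeff, coeff_C_mul, coeff_X_pow, coeff_zero] at h4
      rw [Finset.sum_eq_single i] at h4
      · simpa using h4
      · intro k _ hk
        rw [if_neg (fun hh => hk (Fin.ext hh.symm)), mul_zero]
      · simp
    have h5 := congrFun (congrFun (Matrix.adjugate_mul (facM a F)) j) j
    rw [Matrix.mul_apply] at h5
    simp only [h3, zero_mul, Finset.sum_const_zero, Matrix.smul_apply, Matrix.one_apply_eq,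
      smul_eq_mul, mul_one] at h5
    exact hd F h5.symm

/-- For a linear system of parameters the determinants of the facets do not vanish. -/
theorem det_ne_of_lsop (a : Fin 4 → Fin 11 → K) (h : IsLSOP cplx a) (F : Fin 40) :
    (facM a F).det ≠ 0 := by
  intro h0
  obtain ⟨p, hp, hp0⟩ := Matrix.exists_mulVec_eq_zero_iff.2 h0
  set pv : Fin 11 → K := fun v => ∑ j, if fac F j = v then p j else 0 with hpv
  have hpvF : ∀ j, pv (fac F j) = p j := by
    intro j
    simp only [hpv]
    rw [Finset.sum_eq_single j]
    · simp
    · intro i _ hi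
      rw [if_neg (fun h => hi (fac_inj F h))]
    · simp
  have hpv0 : ∀ v, (∀ j, fac F j ≠ v) → pv v = 0 := by
    intro v hv
    simp [hpv, hv]
  let φ : MvPolynomial (Fin 11) K →ₐ[K] K[X] := MvPolynomial.aeval fun v => C (pv v) * X
  have hker : ∀ q ∈ relIdeal cplx a, φ q = 0 := by
    have hle : relIdeal cplx a ≤ RingHom.ker φ := by
      unfold relIdeal faceIdeal
      rw [sup_le_iff, Ideal.span_le, Ideal.span_le]
      constructor
      · rintro _ ⟨s, hs, hns, rfl⟩
        rw [SetLike.mem_coe, RingHom.mem_ker, map_prod]
        have : ∃ v ∈ s, ∀ j, fac F j ≠ v := by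
          by_contra hcon
          push Not at hcon
          apply hns
          exact ⟨hs, F, fun v hv => (mem_fset F v).2 (hcon v hv)⟩
        obtain ⟨v, hv, hvj⟩ := this
        apply Finset.prod_eq_zero hv
        simp [φ, hpv0 v hvj]
      · rintro _ ⟨i, rfl⟩
        rw [SetLike.mem_coe, RingHom.mem_ker]
        unfold linForm
        rw [map_sum]
        have h1 : ∀ v, φ (MvPolynomial.C (a i v) * MvPolynomial.X v) = C (a i v * pv v) * X := by
          intro v
          rw [map_mul]
          simp only [φ, MvPolynomial.aeval_X, MvPolynomial.aeval_C]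
          rw [C_mul, mul_assoc]
          rfl
        simp only [h1]
        rw [← Finset.sum_mul, ← map_sum]
        have h2 : ∑ v, a i v * pv v = 0 := by
          calc ∑ v, a i v * pv v = ∑ j, a i (fac F j) * p j := by
                simp only [hpv, Finset.mul_sum]
                rw [Finset.sum_comm]
                refine Finset.sum_congr rfl fun j _ => ?_
                rw [Finset.sum_eq_single (fac F j)]
                · simp
                · intro v _ hv
                  rw [if_neg (fun h => hv h.symm), mul_zero]
                · simp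
            _ = 0 := congrFun hp0 i
        rw [h2, C_0, zero_mul]
    exact fun q hq => hle hq
  let ψ : Artin cplx a →ₐ[K] K[X] := Ideal.Quotient.liftₐ (relIdeal cplx a) φ hker
  obtain ⟨j, hj⟩ := Function.ne_iff.1 hp
  rw [Pi.zero_apply] at hj
  have hfin : Module.Finite K (Artin cplx a) := h
  have hint : IsIntegral K (Ideal.Quotient.mk (relIdeal cplx a) (MvPolynomial.X (fac F j))) :=
    IsIntegral.of_finite K _
  have h1 : IsIntegral K (ψ (Ideal.Quotient.mk (relIdeal cplx a) (MvPolynomial.X (fac F j)))) :=
    hint.map ψ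
  have h2 : ψ (Ideal.Quotient.mk (relIdeal cplx a) (MvPolynomial.X (fac F j))) = C (p j) * X := by
    change φ (MvPolynomial.X (fac F j)) = _
    simp [φ, hpvF]
  rw [h2] at h1
  have h3 : IsIntegral K (X : K[X]) := by
    have h4 : (X : K[X]) = C ((p j)⁻¹) * (C (p j) * X) := by
      rw [← mul_assoc, ← C_mul, inv_mul_cancel₀ hj, C_1, one_mul]
    rw [h4]
    exact (isIntegral_algebraMap (R := K) (A := K[X]) (x := (p j)⁻¹)).mul h1
  exact Polynomial.transcendental_X K h3.isAlgebraic

end Pool.Agent.Helper90.Aniso
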