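import Pool.Agent.Helper90.Aniso.Jac

/-!
# Duality: local solutions glue
-/

namespace Pool.Agent.Helper90.Aniso

open Matrix

variable {L : Type*} [Field L] (a : Fin 4 → Fin 11 → L) (x : Fin 4 → L)

theorem facet_identity (hg : Good a x) (y : Fin 4 → L) (G : Fin 40) (u v : Fin 11) (huv : u < v) :
    ∑ k : Fin 4, ∑ i : Fin 3, (if fac G (k.succAbove (i.succAbove 0)) = u ∧
      fac G (k.succAbove (i.succAbove 1)) = v then
        (-1 : L) ^ i.val * (-1) ^ k.val * (co a y G k / co a x G k) else 0) =
      (facM a G).det * om a x y u v * (cov a x G u * cov a x G v) / ∏ j, co a x G j := by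
  have e00 : (0 : Fin 3).succAbove (0 : Fin 2) = 1 := by decide
  have e01 : (0 : Fin 3).succAbove (1 : Fin 2) = 2 := by decide
  have e10 : (1 : Fin 3).succAbove (0 : Fin 2) = 0 := by decide
  have e11 : (1 : Fin 3).succAbove (1 : Fin 2) = 2 := by decide
  have e20 : (2 : Fin 3).succAbove (0 : Fin 2) = 0 := by decide
  have e21 : (2 : Fin 3).succAbove (1 : Fin 2) = 1 := by decide
  have f00 : (0 : Fin 4).succAbove (0 : Fin 3) = 1 := by decide
  have f01 : (0 : Fin 4).succAbove (1 : Fin 3) = 2 := by decide
  have f02 : (0 : Fin 4).succAbove (2 : Fin 3) = 3 := by decide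
  have f10 : (1 : Fin 4).succAbove (0 : Fin 3) = 0 := by decide
  have f11 : (1 : Fin 4).succAbove (1 : Fin 3) = 2 := by decide
  have f12 : (1 : Fin 4).succAbove (2 : Fin 3) = 3 := by decide
  have f20 : (2 : Fin 4).succAbove (0 : Fin 3) = 0 := by decide
  have f21 : (2 : Fin 4).succAbove (1 : Fin 3) = 1 := by decide
  have f22 : (2 : Fin 4).succAbove (2 : Fin 3) = 3 := by decide
  have f30 : (3 : Fin 4).succAbove (0 : Fin 3) = 0 := by decide
  have f31 : (3 : Fin 4).succAbove (1 : Fin 3) = 1 := by decide
  have f32 : (3 : Fin 4).succAbove (2 : Fin 3) = 2 := by decide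
  rw [Fin.sum_univ_four]
  simp only [Fin.sum_univ_three, e00, e01, e10, e11, e20, e21, f00, f01, f02, f10, f11, f12, f20,
    f21, f22, f30, f31, f32]
  by_cases hex : ∃ p q, fac G p = u ∧ fac G q = v
  · obtain ⟨p, q, rfl, rfl⟩ := hex
    have hpq : p < q := (fac_mono G).lt_iff_lt.1 huv
    have n0 := hg.co_ne G 0
    have n1 := hg.co_ne G 1
    have n2 := hg.co_ne G 2
    have n3 := hg.co_ne G 3
    simp only [(fac_inj G).eq_iff, cov_fac, Fin.prod_univ_four]
    have j01 := jacobi (facM a G) x y 2 3 (by decide)
    have j02 := jacobi (facM a G) x y 1 3 (by decide)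
    have j03 := jacobi (facM a G) x y 1 2 (by decide)
    have j12 := jacobi (facM a G) x y 0 3 (by decide)
    have j13 := jacobi (facM a G) x y 0 2 (by decide)
    have j23 := jacobi (facM a G) x y 0 1 (by decide)
    rw [om_01] at j01
    rw [om_02] at j02
    rw [om_03] at j03
    rw [om_12] at j12
    rw [om_13] at j13
    rw [om_23] at j23
    change co a x G 2 * co a y G 3 - co a x G 3 * co a y G 2 = _ at j01
    change co a x G 1 * co a y G 3 - co a x G 3 * co a y G 1 = _ at j02
    change co a x G 1 * co a y G 2 - co a x G 2 * co a y G 1 = _ at j03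
    change co a x G 0 * co a y G 3 - co a x G 3 * co a y G 0 = _ at j12
    change co a x G 0 * co a y G 2 - co a x G 2 * co a y G 0 = _ at j13
    change co a x G 0 * co a y G 1 - co a x G 1 * co a y G 0 = _ at j23
    fin_cases p <;> fin_cases q <;> simp at hpq ⊢
    · field_simp
      linear_combination - j01
    · field_simp
      linear_combination j02
    · field_simp
      linear_combination - j03
    · field_simp
      linear_combination - j12
    · field_simp
      linear_combination j13
    · field_simp
      linear_combination - j23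
  · have h1 : ∀ p q, ¬ (fac G p = u ∧ fac G q = v) := fun p q h => hex ⟨p, q, h⟩
    simp only [h1, if_false]
    have h2 : cov a x G u * cov a x G v = 0 := by
      by_cases hu : ∃ p, fac G p = u
      · obtain ⟨p, hp⟩ := hu
        rw [cov_zero a x G v (fun q hq => h1 p q ⟨hp, hq⟩), mul_zero]
      · push Not at hu
        rw [cov_zero a x G u hu, zero_mul]
    rw [h2]
    simp

/-- The value at `x` of the functional attached to a triangle. -/
def nu (t : Fin 80) : L := ∑ i, br a t i * x i

/-- The functional attached to a triangle, normalised to be one at `x`. -/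
def wt (t : Fin 80) (i : Fin 4) : L := br a t i / nu a x t

theorem nu_ne (hg : Good a x) (F : Fin 40) (j : Fin 4) : nu a x (rid F j) ≠ 0 := by
  intro h
  apply hg.co_ne F j
  rw [co_br]
  unfold nu at h
  rw [h, mul_zero]

theorem wt_dot (F : Fin 40) (j : Fin 4) (y : Fin 4 → L) :
    ∑ i, wt a x (rid F j) i * y i = co a y F j / co a x F j := by
  rw [co_br, co_br, mul_div_mul_left _ _ (pow_ne_zero _ (neg_ne_zero.2 one_ne_zero))]
  unfold wt nu
  rw [Finset.sum_div]
  refine Finset.sum_congr rfl fun i _ => by ring

theorem wt_x (hg : Good a x) (F : Fin 40) (j : Fin 4) : ∑ i, wt a x (rid F j) i * x i = 1 := by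
  rw [wt_dot, div_self (hg.co_ne F j)]

theorem wt_vert (F : Fin 40) (j k : Fin 4) (hk : k ≠ j) :
    ∑ i, wt a x (rid F j) i * a i (fac F k) = 0 := by
  have h := wt_dot a x F j (fun i => a i (fac F k))
  rw [co_self a F j k hk, zero_div] at h
  exact h

theorem sum_rid (Ψ : Fin 80 → L) (c : Fin 40 → Fin 4 → L) :
    ∑ t, Ψ t * ∑ G, ∑ k, (if rid G k = t then c G k else 0) = ∑ G, ∑ k, c G k * Ψ (rid G k) := by
  simp only [Finset.mul_sum]
  rw [Finset.sum_comm]
  refine Finset.sum_congr rfl fun G _ => ?_
  rw [Finset.sum_comm]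
  refine Finset.sum_congr rfl fun k _ => ?_
  rw [Finset.sum_eq_single (rid G k)]
  · simp [mul_comm]
  · intro t _ ht
    rw [if_neg (fun h => ht h.symm), mul_zero]
  · simp

theorem closed_aux (hg : Good a x) (s : Fin 40 → L)
    (hs : ∀ u v, ∑ F, (ori F : L) / ((facM a F).det * ∏ j, co a x F j) * s F *
      (cov a x F u * cov a x F v) = 0) (y : Fin 4 → L) (u v : Fin 11) :
    ∑ t, (∑ i : Fin 3, (if tri t (i.succAbove 0) = u ∧ tri t (i.succAbove 1) = v then
      (-1 : L) ^ i.val * ∑ l, wt a x t l * y l else 0)) *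
      ∑ G, ∑ k, (if rid G k = t then (-1 : L) ^ k.val * ori G * (s G / (facM a G).det ^ 2)
        else 0) = 0 := by
  rw [sum_rid]
  by_cases huv : u < v
  · have h1 : ∀ G, ∑ k : Fin 4, (-1 : L) ^ k.val * ori G * (s G / (facM a G).det ^ 2) *
        (∑ i : Fin 3, (if tri (rid G k) (i.succAbove 0) = u ∧ tri (rid G k) (i.succAbove 1) = v
          then (-1 : L) ^ i.val * ∑ l, wt a x (rid G k) l * y l else 0)) =
        om a x y u v * ((ori G : L) / ((facM a G).det * ∏ j, co a x G j) * s G *
      (cov a x G u * cov a x G v)) := by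
      intro G
      have h := facet_identity a x hg y G u v huv
      have hd := hg.det_ne G
      have hp : ∏ j, co a x G j ≠ 0 := Finset.prod_ne_zero_iff.2 fun i _ => hg.co_ne _ _
      calc _ = (ori G : L) * (s G / (facM a G).det ^ 2) * ∑ k : Fin 4, ∑ i : Fin 3,
            (if fac G (k.succAbove (i.succAbove 0)) = u ∧
              fac G (k.succAbove (i.succAbove 1)) = v then
              (-1 : L) ^ i.val * (-1) ^ k.val * (co a y G k / co a x G k) else 0) := by
            rw [Finset.mul_sum]
            refine Finset.sum_congr rfl fun k _ => ?_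
            rw [Finset.mul_sum, Finset.mul_sum]
            refine Finset.sum_congr rfl fun i _ => ?_
            rw [tri_rid, tri_rid, wt_dot]
            split_ifs
            · ring
            · ring
        _ = _ := by
            rw [h]
            field_simp
    simp only [h1]
    rw [← Finset.mul_sum, hs u v, mul_zero]
  · refine Finset.sum_eq_zero fun G _ => Finset.sum_eq_zero fun k _ => ?_
    rw [Finset.sum_eq_zero, mul_zero]
    intro i _
    rw [if_neg]
    rintro ⟨h1, h2⟩
    rw [tri_rid] at h1 h2
    apply huv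
    rw [← h1, ← h2]
    apply fac_mono
    apply Fin.strictMono_succAbove
    apply Fin.strictMono_succAbove
    decide

/-- An element of the facet space that is orthogonal to all quadratic evaluations is the evaluation
of a linear function. -/
theorem duality (hg : Good a x) (h2 : (2 : L) ≠ 0) (s : Fin 40 → L)
    (hs : ∀ u v, ∑ F, (ori F : L) / ((facM a F).det * ∏ j, co a x F j) * s F *
      (cov a x F u * cov a x F v) = 0) :
    ∃ g : Fin 11 → L, ∀ F, s F = (facM a F).det * ∑ v, g v * cov a x F v := by
  set σ : Fin 40 → L := fun F => s F / (facM a F).det ^ 2 with hσ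
  set B : Fin 80 → L := fun t => ∑ G, ∑ k, (if rid G k = t then (-1 : L) ^ k.val * ori G * σ G
        else 0) with hB
  obtain ⟨r, hr⟩ := h2_vanish h2 (fun t => B t • (wt a x t : Fin 4 → L)) (by
    intro u v
    funext i0
    have h := closed_aux a x hg s hs (Pi.single i0 1) u v
    rw [Pi.zero_apply, ← h, Finset.sum_apply]
    refine Finset.sum_congr rfl fun t _ => ?_
    rw [Finset.sum_apply, Finset.sum_mul]
    refine Finset.sum_congr rfl fun i _ => ?_
    have h3 : ∑ l, wt a x t l * (Pi.single i0 1 : Fin 4 → L) l = wt a x t i0 := by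
      simp [Pi.single_apply]
    rw [h3]
    split_ifs
    · simp only [Pi.smul_apply, smul_eq_mul, hB, hσ]
      ring
    · simp)
  -- the functionals on the facets
  set g' : Fin 40 → Fin 4 → L := fun F => (ori F : L) • r F with hg'
  have osq : ∀ F, (ori F : L) * ori F = 1 := fun F => by
    rw [← Int.cast_mul, ori_sq, Int.cast_one]
  have sgn : ∀ k : ℕ, ((-1 : L)) ^ k * (-1) ^ k = 1 := fun k => by
    rw [← mul_pow]; simp
  have hdiff : ∀ F j, g' F - g' (nbr F j) = (σ F - σ (nbr F j)) • (wt a x (rid F j)) := by
    intro F j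
    have h := hr F j
    have hBv : B (rid F j) = (-1 : L) ^ j.val * ori F * σ F +
        (-1 : L) ^ (opp F j).val * ori (nbr F j) * σ (nbr F j) := by
      simp only [hB]
      exact two_term (fun G k => (-1 : L) ^ k.val * ori G * σ G) F j
    have hor : (-1 : L) ^ j.val * ori F + (-1) ^ (opp F j).val * ori (nbr F j) = 0 := by
      exact_mod_cast congrArg (Int.cast : ℤ → L) (ori_nbr F j)
    have hor2 : (-1 : L) ^ (opp F j).val * ori (nbr F j) = - ((-1 : L) ^ j.val * ori F) :=
      eq_neg_of_add_eq_zero_right hor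
    have h4 : (-1 : L) ^ (opp F j).val = - ((-1 : L) ^ j.val * ori F) * ori (nbr F j) := by
      rw [← hor2, mul_assoc, osq, mul_one]
    have h5 : (-1 : L) ^ j.val = ((-1 : L) ^ j.val * ori F) * ori F := by
      rw [mul_assoc, osq, mul_one]
    have hc : ((-1 : L) ^ j.val * ori F) * ((-1 : L) ^ j.val * ori F) = 1 := by
      calc _ = ((-1 : L) ^ j.val * (-1 : L) ^ j.val) * (ori F * ori F) := by ring
        _ = 1 := by rw [sgn, osq, one_mul]
    rw [hBv, hor2] at h
    funext i
    have h6 := congrFun h i
    simp only [Pi.add_apply, Pi.smul_apply, smul_eq_mul] at h6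
    rw [h4] at h6
    simp only [hg', Pi.sub_apply, Pi.smul_apply, smul_eq_mul]
    have h7 : ((-1 : L) ^ j.val * ori F) * ((ori F : L) * r F i - ori (nbr F j) * r (nbr F j) i) =
        ((-1 : L) ^ j.val * ori F) * ((σ F - σ (nbr F j)) * wt a x (rid F j) i) := by
      calc _ = (-1 : L) ^ j.val * (ori F * ori F) * r F i +
            -((-1) ^ j.val * ori F) * ori (nbr F j) * r (nbr F j) i := by ring
        _ = (-1 : L) ^ j.val * r F i +
            -((-1) ^ j.val * ori F) * ori (nbr F j) * r (nbr F j) i := by rw [osq, mul_one]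
        _ = _ := by rw [← h6]; ring
    calc (ori F : L) * r F i - ori (nbr F j) * r (nbr F j) i
        = ((-1 : L) ^ j.val * ori F) * (((-1 : L) ^ j.val * ori F) *
          ((ori F : L) * r F i - ori (nbr F j) * r (nbr F j) i)) := by
          rw [← mul_assoc, hc, one_mul]
      _ = _ := by rw [h7, ← mul_assoc, hc, one_mul]
  -- values at `x`
  have hx : ∀ F j, ∑ i, g' F i * x i - σ F = ∑ i, g' (nbr F j) i * x i - σ (nbr F j) := by
    intro F j
    have h := hdiff F j
    have h1 : ∑ i, (g' F i - g' (nbr F j) i) * x i = (σ F - σ (nbr F j)) := by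
      have : ∀ i, g' F i - g' (nbr F j) i = (σ F - σ (nbr F j)) * wt a x (rid F j) i :=
        fun i => congrFun h i
      simp only [this, mul_assoc]
      rw [← Finset.mul_sum, wt_x a x hg F j, mul_one]
    simp only [sub_mul, Finset.sum_sub_distrib] at h1
    linear_combination h1
  have hx0 : ∀ m : ℕ, ∀ F, depF F = m → ∑ i, g' F i * x i - σ F = ∑ i, g' 0 i * x i - σ 0 := by
    intro m
    induction m using Nat.strong_induction_on with
    | _ m ih =>
      intro F hF
      rcases fsg_tree F with h | ⟨h, _⟩
      · rw [h]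
      · rw [hx F (nxtF F)]
        exact ih _ (hF ▸ h) _ rfl
  -- values at the vertices
  have hv : ∀ F j k, k ≠ j → ∑ i, g' F i * a i (fac F k) = ∑ i, g' (nbr F j) i * a i (fac F k) := by
    intro F j k hk
    have h := hdiff F j
    have h1 : ∑ i, (g' F i - g' (nbr F j) i) * a i (fac F k) = 0 := by
      have : ∀ i, g' F i - g' (nbr F j) i = (σ F - σ (nbr F j)) * wt a x (rid F j) i :=
        fun i => congrFun h i
      simp only [this, mul_assoc]
      rw [← Finset.mul_sum, wt_vert a x F j k hk, mul_zero]
    simp only [sub_mul, Finset.sum_sub_distrib] at h1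
    linear_combination h1
  have hv0 : ∀ m : ℕ, ∀ F j, depV F (fac F j) = m → ∑ i, g' F i * a i (fac F j) =
      ∑ i, g' (baseV (fac F j)) i * a i (fac F j) := by
    intro m
    induction m using Nat.strong_induction_on with
    | _ m ih =>
      intro F j hF
      rcases tree_vert F j with h | ⟨h1, h3⟩
      · rw [← h]
      · obtain ⟨i, hi⟩ := Fin.exists_succAbove_eq (Ne.symm h1)
        rw [hv F (nxtV F (fac F j)) j (Ne.symm h1)]
        have hf : fac (nbr F (nxtV F (fac F j))) ((opp F (nxtV F (fac F j))).succAbove i) =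
            fac F j := by
          rw [fac_nbr, hi]
        have h4 := ih _ (hF ▸ h3) (nbr F (nxtV F (fac F j)))
          ((opp F (nxtV F (fac F j))).succAbove i) (by rw [hf])
        rw [hf] at h4
        exact h4
  set c0 : L := ∑ i, g' 0 i * x i - σ 0 with hc0
  set W0 : Fin 4 → L := wt a x (rid 0 0) with hW0
  set H : Fin 40 → Fin 4 → L := fun F i => g' F i - c0 * W0 i with hH
  have hHx : ∀ F, ∑ i, H F i * x i = σ F := by
    intro F
    have h := hx0 _ F rfl
    have h1 : ∑ i, W0 i * x i = 1 := wt_x a x hg 0 0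
    simp only [hH, sub_mul, Finset.sum_sub_distrib, mul_assoc]
    rw [← Finset.mul_sum, h1]
    linear_combination h
  have hHv : ∀ F j, ∑ i, H F i * a i (fac F j) = ∑ i, H (baseV (fac F j)) i * a i (fac F j) := by
    intro F j
    simp only [hH, sub_mul, Finset.sum_sub_distrib]
    rw [hv0 _ F j rfl]
  refine ⟨fun v => ∑ i, H (baseV v) i * a i v, fun F => ?_⟩
  have hd := hg.det_ne F
  have h1 : s F = (facM a F).det * ((facM a F).det * ∑ i, H F i * x i) := by
    rw [hHx, hσ]
    field_simp
  rw [h1, sum_cov]
  congr 1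
  calc (facM a F).det * ∑ i, H F i * x i = ∑ i, H F i * ((facM a F).det * x i) := by
        rw [Finset.mul_sum]
        refine Finset.sum_congr rfl fun i _ => by ring
    _ = ∑ i, H F i * ∑ j, a i (fac F j) * co a x F j := by
        refine Finset.sum_congr rfl fun i _ => by rw [co_sum]
    _ = ∑ j, (∑ i, H F i * a i (fac F j)) * co a x F j := by
        simp only [Finset.mul_sum, Finset.sum_mul]
        rw [Finset.sum_comm]
        refine Finset.sum_congr rfl fun j _ => Finset.sum_congr rfl fun i _ => by ring
    _ = _ := by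
        refine Finset.sum_congr rfl fun j _ => by rw [hHv]

end Pool.Agent.Helper90.Aniso
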