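import Pool.Agent.Helper90.Aniso.H2

/-!
# Coordinates of a point in the facets
-/

namespace Pool.Agent.Helper90.Aniso

open Matrix

variable {L : Type*} [Field L]

/-- The matrix of the vertex vectors of a facet (as columns). -/
def facM (a : Fin 4 → Fin 11 → L) (F : Fin 40) : Matrix (Fin 4) (Fin 4) L :=
  Matrix.of fun i j => a i (fac F j)

/-- The unnormalised coordinates of `x` in the facet `F`. -/
def co (a : Fin 4 → Fin 11 → L) (x : Fin 4 → L) (F : Fin 40) : Fin 4 → L :=
  (facM a F).cramer x

/-- The unnormalised coordinates of `x` in the facet `F`, extended by zero to all vertices. -/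
def cov (a : Fin 4 → Fin 11 → L) (x : Fin 4 → L) (F : Fin 40) (v : Fin 11) : L :=
  ∑ j, if fac F j = v then co a x F j else 0

variable (a : Fin 4 → Fin 11 → L) (x : Fin 4 → L)

theorem cov_fac (F : Fin 40) (j : Fin 4) : cov a x F (fac F j) = co a x F j := by
  unfold cov
  rw [Finset.sum_eq_single j]
  · simp
  · intro i _ hi
    rw [if_neg (fun h => hi (fac_inj F h))]
  · simp

theorem cov_zero (F : Fin 40) (v : Fin 11) (h : ∀ j, fac F j ≠ v) : cov a x F v = 0 := by
  unfold cov
  simp [h]

theorem sum_cov (F : Fin 40) (g : Fin 11 → L) :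
    ∑ v, g v * cov a x F v = ∑ j, g (fac F j) * co a x F j := by
  unfold cov
  simp only [Finset.mul_sum]
  rw [Finset.sum_comm]
  refine Finset.sum_congr rfl fun j _ => ?_
  rw [Finset.sum_eq_single (fac F j)]
  · simp
  · intro v _ hv
    rw [if_neg (fun h => hv h.symm), mul_zero]
  · simp

theorem co_sum (F : Fin 40) (i : Fin 4) :
    ∑ j, a i (fac F j) * co a x F j = (facM a F).det * x i := by
  have h := congrFun (Matrix.mulVec_cramer (facM a F) x) i
  simpa [Matrix.mulVec, dotProduct, facM, co] using h

theorem sum_fun (F : Fin 40) (z : Fin 4 → L) :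
    ∑ v, (∑ i, z i * a i v) * cov a x F v = (facM a F).det * ∑ i, z i * x i := by
  rw [sum_cov]
  simp only [Finset.sum_mul]
  rw [Finset.sum_comm, Finset.mul_sum]
  refine Finset.sum_congr rfl fun i _ => ?_
  have := co_sum a x F i
  calc ∑ j, z i * a i (fac F j) * co a x F j = z i * ∑ j, a i (fac F j) * co a x F j := by
        rw [Finset.mul_sum]; refine Finset.sum_congr rfl fun j _ => by ring
    _ = _ := by rw [this]; ring

/-- The functional attached to a triangle. -/
def br (t : Fin 80) (i : Fin 4) : L :=
  (-1) ^ i.val * (Matrix.of fun r c : Fin 3 => a (i.succAbove r) (tri t c)).det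

theorem co_br (F : Fin 40) (j : Fin 4) :
    co a x F j = (-1) ^ j.val * ∑ i, br a (rid F j) i * x i := by
  unfold co
  rw [Matrix.cramer_apply, Matrix.det_succ_column _ j, Finset.mul_sum]
  refine Finset.sum_congr rfl fun i _ => ?_
  have h1 : ((facM a F).updateCol j x).submatrix i.succAbove j.succAbove =
      Matrix.of fun r c : Fin 3 => a (i.succAbove r) (tri (rid F j) c) := by
    ext r c
    simp [Matrix.submatrix_apply, facM, tri_rid]
  rw [h1, Matrix.updateCol_self]
  unfold br
  ring

/-- Two coordinates on neighbouring facets. -/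
theorem co_nbr (F : Fin 40) (j : Fin 4) :
    (-1) ^ j.val * co a x F j = (-1) ^ (opp F j).val * co a x (nbr F j) (opp F j) := by
  have h : rid (nbr F j) (opp F j) = rid F j := (rid_eq F j _ _).2 (Or.inr ⟨rfl, rfl⟩)
  rw [co_br, co_br, h, ← mul_assoc, ← mul_assoc, ← mul_pow, ← mul_pow]
  simp

theorem co_self (F : Fin 40) (j k : Fin 4) (h : k ≠ j) :
    co a (fun i => a i (fac F k)) F j = 0 := by
  unfold co
  have h1 := Matrix.cramer_row_self (A := facM a F) (b := fun i => a i (fac F k)) k (fun i => rfl)
  rw [h1]
  simp [Ne.symm h]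

theorem br_tri (F : Fin 40) (j : Fin 4) (c : Fin 3) :
    ∑ i, br a (rid F j) i * a i (tri (rid F j) c) = 0 := by
  have h := co_br a (fun i => a i (fac F (j.succAbove c))) F j
  rw [co_self a F j _ (Fin.succAbove_ne j c)] at h
  rw [tri_rid]
  have h2 : ((-1 : L)) ^ j.val ≠ 0 := pow_ne_zero _ (neg_ne_zero.2 one_ne_zero)
  exact (mul_eq_zero.1 h.symm).resolve_left h2

/-- Existence of a functional with prescribed values on the columns of an invertible matrix. -/
theorem exists_fun (B : Matrix (Fin 4) (Fin 4) L) (hB : B.det ≠ 0) (c : Fin 4 → L) :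
    ∃ z : Fin 4 → L, ∀ j, ∑ i, z i * B i j = c j := by
  refine ⟨c ᵥ* B⁻¹, fun j => ?_⟩
  have h : (c ᵥ* B⁻¹) ᵥ* B = c := by
    rw [Matrix.vecMul_vecMul, Matrix.nonsing_inv_mul _ (isUnit_iff_ne_zero.2 hB),
      Matrix.vecMul_one]
  exact congrFun h j

/-- A functional vanishing on the columns of an invertible matrix is zero. -/
theorem fun_zero (B : Matrix (Fin 4) (Fin 4) L) (hB : B.det ≠ 0) (z : Fin 4 → L)
    (h : ∀ j, ∑ i, z i * B i j = 0) : z = 0 := by
  apply Matrix.eq_zero_of_vecMul_eq_zero hB
  funext j
  exact h j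

/-- The nondegeneracy assumptions on the vertex vectors and the auxiliary vector. -/
structure Good (a : Fin 4 → Fin 11 → L) (x : Fin 4 → L) : Prop where
  det_ne : ∀ F, (facM a F).det ≠ 0
  co_ne : ∀ F j, co a x F j ≠ 0

/-- A functional adapted to a facet and the auxiliary vector. -/
theorem exists_fun_facet (hg : Good a x) (G : Fin 40) (z : Fin 4) (c : Fin 4 → L) :
    ∃ w : Fin 4 → L, (∑ i, w i * x i = c z) ∧
      ∀ y, y ≠ z → ∑ i, w i * a i (fac G y) = c y := by
  have hB : ((facM a G).updateCol z x).det ≠ 0 := by
    rw [← Matrix.cramer_apply]; exact hg.co_ne G z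
  obtain ⟨w, hw⟩ := exists_fun _ hB c
  refine ⟨w, ?_, fun y hy => ?_⟩
  · have := hw z
    simpa [Matrix.updateCol_self] using this
  · have := hw y
    simpa [Matrix.updateCol_ne hy, facM] using this

/-- The sums that compute degrees. -/
def csum (f : Fin 3 → Fin 11) : L :=
  ∑ F, (ori F : L) / (∏ j, co a x F j) * ∏ i, cov a x F (f i)

theorem prod_cov_zero {k : ℕ} (f : Fin k → Fin 11) (F : Fin 40)
    (h : ¬ ∀ i, ∃ j, fac F j = f i) : ∏ i, cov a x F (f i) = 0 := by
  push Not at h
  obtain ⟨i, hi⟩ := h
  exact Finset.prod_eq_zero (Finset.mem_univ i) (cov_zero a x F _ hi)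

theorem csum_ridge (hg : Good a x) (G : Fin 40) (j : Fin 4) :
    csum a x (fun i => fac G (j.succAbove i)) = 0 := by
  unfold csum
  have hne : G ≠ nbr G j := fun h => (nbr_nbr G j).2.2 h.symm
  rw [← Finset.sum_subset (Finset.subset_univ {G, nbr G j})]
  · rw [Finset.sum_pair hne]
    have h1 : ∏ i : Fin 3, cov a x G (fac G (j.succAbove i)) =
        ∏ i : Fin 3, co a x G (j.succAbove i) := by
      refine Finset.prod_congr rfl fun i _ => cov_fac a x G _
    have h2 : ∏ i : Fin 3, cov a x (nbr G j) (fac G (j.succAbove i)) =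
        ∏ i : Fin 3, co a x (nbr G j) ((opp G j).succAbove i) := by
      refine Finset.prod_congr rfl fun i _ => ?_
      rw [← fac_nbr, cov_fac]
    rw [h1, h2, Fin.prod_univ_succAbove _ j, Fin.prod_univ_succAbove _ (opp G j)]
    have n1 : ∏ i : Fin 3, co a x G (j.succAbove i) ≠ 0 :=
      Finset.prod_ne_zero_iff.2 fun i _ => hg.co_ne _ _
    have n2 : ∏ i : Fin 3, co a x (nbr G j) ((opp G j).succAbove i) ≠ 0 :=
      Finset.prod_ne_zero_iff.2 fun i _ => hg.co_ne _ _
    have n3 := hg.co_ne G j
    have n4 := hg.co_ne (nbr G j) (opp G j)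
    have h3 := co_nbr a x G j
    have h4 : ((-1 : L)) ^ j.val * ori G + (-1) ^ (opp G j).val * ori (nbr G j) = 0 := by
      exact_mod_cast congrArg (Int.cast : ℤ → L) (ori_nbr G j)
    have e1 : (ori G : L) / (co a x G j * ∏ i : Fin 3, co a x G (j.succAbove i)) *
        ∏ i : Fin 3, co a x G (j.succAbove i) = ori G / co a x G j := by
      field_simp
    have e2 : (ori (nbr G j) : L) / (co a x (nbr G j) (opp G j) *
        ∏ i : Fin 3, co a x (nbr G j) ((opp G j).succAbove i)) *
        ∏ i : Fin 3, co a x (nbr G j) ((opp G j).succAbove i) =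
        ori (nbr G j) / co a x (nbr G j) (opp G j) := by
      field_simp
    rw [e1, e2, div_add_div _ _ n3 n4, div_eq_zero_iff]
    left
    have s1 : ((-1 : L)) ^ j.val * (-1) ^ j.val = 1 := by
      rw [← mul_pow]; simp
    have s2 : ((-1 : L)) ^ (opp G j).val * (-1) ^ (opp G j).val = 1 := by
      rw [← mul_pow]; simp
    have h5 : co a x G j = (-1) ^ j.val * ((-1) ^ (opp G j).val *
        co a x (nbr G j) (opp G j)) := by
      rw [← h3, ← mul_assoc, s1, one_mul]
    have h6 : (ori G : L) = - ((-1) ^ j.val * ((-1) ^ (opp G j).val * ori (nbr G j))) := by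
      have : (-1 : L) ^ j.val * ((-1) ^ j.val * ori G) = - ((-1) ^ j.val *
          ((-1) ^ (opp G j).val * ori (nbr G j))) := by
        rw [eq_neg_of_add_eq_zero_left h4]; ring
      rw [← this, ← mul_assoc, s1, one_mul]
    rw [h5, h6]
    ring
  · intro F _ hF
    simp only [Finset.mem_insert, Finset.mem_singleton, not_or] at hF
    rw [prod_cov_zero a x _ F, mul_zero]
    intro h
    rcases ridge_only G j F h with h | h
    · exact hF.1 h
    · exact hF.2 h

theorem image_update_card {k : ℕ} (f : Fin k → Fin 11) (i₁ i₂ : Fin k) (h12 : i₁ ≠ i₂)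
    (hf : f i₁ = f i₂) (v : Fin 11) (hv : ∀ i, f i ≠ v) :
    (Finset.univ.image (Function.update f i₁ v)).card = (Finset.univ.image f).card + 1 := by
  have : Finset.univ.image (Function.update f i₁ v) = insert v (Finset.univ.image f) := by
    ext y
    simp only [Finset.mem_image, Finset.mem_univ, true_and, Finset.mem_insert]
    constructor
    · rintro ⟨i, rfl⟩
      by_cases hi : i = i₁
      · subst hi; left; simp
      · right; exact ⟨i, by simp [Function.update_of_ne hi]⟩
    · rintro (rfl | ⟨i, rfl⟩)
      · exact ⟨i₁, by simp⟩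
      · by_cases hi : i = i₁
        · exact ⟨i₂, by rw [Function.update_of_ne h12.symm, hi, hf]⟩
        · exact ⟨i, by rw [Function.update_of_ne hi]⟩
  rw [this, Finset.card_insert_of_notMem]
  simp only [Finset.mem_image, Finset.mem_univ, true_and, not_exists]
  exact hv

/-- An injective triple of vertices of a facet is the triple opposite to one of its vertices,
up to order. -/
theorem exists_succAbove (G : Fin 40) (f : Fin 3 → Fin 11) (hf : Function.Injective f)
    (h : ∀ i, ∃ j, fac G j = f i) :
    ∃ (j : Fin 4) (e : Fin 3 ≃ Fin 3), ∀ i, f i = fac G (j.succAbove (e i)) := by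
  choose p hp using h
  have hpi : Function.Injective p := fun i k hik => hf (by rw [← hp, ← hp, hik])
  have hj : ∃ j, ∀ i, p i ≠ j := by
    by_contra hcon
    push Not at hcon
    have hs : Function.Surjective p := fun j => hcon j
    have := Fintype.card_le_of_surjective p hs
    simp at this
  obtain ⟨j, hj⟩ := hj
  have h3 : ∀ i, ∃ k : Fin 3, j.succAbove k = p i := fun i =>
    Fin.exists_succAbove_eq (hj i)
  choose e he using h3
  have hei : Function.Injective e := fun i k hik => hpi (by rw [← he, ← he, hik])
  refine ⟨j, Equiv.ofBijective e (Finite.injective_iff_bijective.1 hei), fun i => ?_⟩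
  rw [Equiv.ofBijective_apply, he, hp]

theorem csum_zero (hg : Good a x) (f : Fin 3 → Fin 11) : csum a x f = 0 := by
  generalize hm : 3 - (Finset.univ.image f).card = m
  induction m using Nat.strong_induction_on generalizing f with
  | _ m ih =>
  by_cases hex : ∃ G, ∀ i, ∃ j, fac G j = f i
  · obtain ⟨G, hG⟩ := hex
    by_cases hinj : Function.Injective f
    · obtain ⟨j, e, he⟩ := exists_succAbove G f hinj hG
      have h1 := csum_ridge a x hg G j
      unfold csum at h1 ⊢
      rw [← h1]
      refine Finset.sum_congr rfl fun F _ => ?_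
      congr 1
      calc ∏ i, cov a x F (f i) = ∏ i, cov a x F (fac G (j.succAbove (e i))) :=
            Finset.prod_congr rfl fun i _ => by rw [he i]
        _ = ∏ i, cov a x F (fac G (j.succAbove i)) :=
            Equiv.prod_comp e (fun i => cov a x F (fac G (j.succAbove i)))
    · rw [Function.Injective] at hinj
      push Not at hinj
      obtain ⟨i₁, i₂, hf, h12⟩ := hinj
      -- choose a vertex of `G` not used by `f`
      have hz : ∃ z, ∀ i, f i ≠ fac G z := by
        by_contra hcon
        push Not at hcon
        choose q hq using hcon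
        have hqi : Function.Injective q := fun y z hyz => fac_inj G (by rw [← hq, ← hq, hyz])
        have := Fintype.card_le_of_injective q hqi
        simp at this
      obtain ⟨z, hz⟩ := hz
      obtain ⟨y₀, hy₀⟩ := hG i₁
      have hy₀z : y₀ ≠ z := fun h => hz i₁ (by rw [← hy₀, h])
      obtain ⟨w, hw1, hw2⟩ := exists_fun_facet a x hg G z (Pi.single y₀ 1)
      rw [Pi.single_eq_of_ne (Ne.symm hy₀z)] at hw1
      set q : Fin 11 → L := fun v => ∑ i, w i * a i v with hq
      have hrel : ∀ F, ∑ v, q v * cov a x F v = 0 := by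
        intro F
        rw [sum_fun, hw1, mul_zero]
      have hq1 : q (f i₁) = 1 := by
        rw [← hy₀]
        have := hw2 y₀ hy₀z
        rw [Pi.single_eq_same] at this
        exact this
      have hsum : ∑ v, q v * csum a x (Function.update f i₁ v) = 0 := by
        unfold csum
        simp only [Finset.mul_sum]
        rw [Finset.sum_comm]
        refine Finset.sum_eq_zero fun F _ => ?_
        have hprod : ∀ v, ∏ i, cov a x F (Function.update f i₁ v i) =
            cov a x F v * ∏ i ∈ Finset.univ.erase i₁, cov a x F (f i) := by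
          intro v
          rw [← Finset.mul_prod_erase Finset.univ _ (Finset.mem_univ i₁), Function.update_self]
          congr 1
          refine Finset.prod_congr rfl fun i hi => ?_
          rw [Function.update_of_ne (Finset.ne_of_mem_erase hi)]
        calc ∑ v, q v * ((ori F : L) / (∏ j, co a x F j) *
              ∏ i, cov a x F (Function.update f i₁ v i))
            = (ori F : L) / (∏ j, co a x F j) *
              (∏ i ∈ Finset.univ.erase i₁, cov a x F (f i)) * ∑ v, q v * cov a x F v := by
              rw [Finset.mul_sum]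
              refine Finset.sum_congr rfl fun v _ => ?_
              rw [hprod]; ring
          _ = 0 := by rw [hrel, mul_zero]
      rw [Finset.sum_eq_single (f i₁)] at hsum
      · rw [hq1, one_mul, Function.update_eq_self] at hsum
        exact hsum
      · intro v _ hv
        by_cases hvi : ∀ i, f i ≠ v
        · have hcard := image_update_card f i₁ i₂ h12 hf v hvi
          have hle : (Finset.univ.image (Function.update f i₁ v)).card ≤ 3 := by
            refine (Finset.card_image_le).trans ?_
            simp
          rw [ih _ ?_ (Function.update f i₁ v) rfl, mul_zero]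
          omega
        · push Not at hvi
          obtain ⟨i, hi⟩ := hvi
          obtain ⟨y, hy⟩ := hG i
          have hyz : y ≠ z := fun h => hz i (by rw [← hy, h])
          have hyy : y ≠ y₀ := fun h => hv (by rw [← hi, ← hy, h, hy₀])
          have : q v = 0 := by
            rw [← hi, ← hy]
            have := hw2 y hyz
            rw [Pi.single_eq_of_ne hyy] at this
            exact this
          rw [this, zero_mul]
      · intro h; exact absurd (Finset.mem_univ _) h
  · unfold csum
    refine Finset.sum_eq_zero fun F _ => ?_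
    rw [prod_cov_zero a x f F (fun h => hex ⟨F, h⟩), mul_zero]

end Pool.Agent.Helper90.Aniso
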