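import Pool.Agent.Helper90.Aniso.Data

/-!
# Vanishing of the second homology of the explicit complex when two is invertible
-/

namespace Pool.Agent.Helper90.Aniso

variable {L : Type*} [Field L] {M : Type*} [AddCommGroup M] [Module L M]

/-- A sum over the two facets that contain a given triangle. -/
theorem two_term {M : Type*} [AddCommMonoid M] (f : Fin 40 → Fin 4 → M) (F : Fin 40) (j : Fin 4) :
    ∑ G, ∑ k, (if rid G k = rid F j then f G k else 0) = f F j + f (nbr F j) (opp F j) := by
  rw [← Fintype.sum_prod_type' (f := fun G k => if rid G k = rid F j then f G k else 0)]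
  rw [← Finset.sum_filter]
  have hne : (F, j) ≠ (nbr F j, opp F j) := by
    intro h
    exact (nbr_nbr F j).2.2 (congrArg Prod.fst h).symm
  have : (Finset.univ.filter fun p : Fin 40 × Fin 4 => rid p.1 p.2 = rid F j) =
      {(F, j), (nbr F j, opp F j)} := by
    ext ⟨G, k⟩
    simp only [Finset.mem_filter, Finset.mem_univ, true_and, Finset.mem_insert, Prod.mk.injEq,
      Finset.mem_singleton]
    exact rid_eq F j G k
  rw [this, Finset.sum_pair hne]

theorem cert (F : Fin 40) (j : Fin 4) (s : Fin 80) :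
    (-1) ^ j.val * cR F s + (-1) ^ (opp F j).val * cR (nbr F j) s +
      (cP (rid F j) (tri s 1) (tri s 2) - cP (rid F j) (tri s 0) (tri s 2)
        + cP (rid F j) (tri s 0) (tri s 1)) =
    if rid F j = s then 2 else 0 := by
  have h := cert_aux (rid F j) s
  rcases (rid_eq F j (triF (rid F j)) (triJ (rid F j))).1 (rid_tri _) with ⟨h1, h2⟩ | ⟨h1, h2⟩
  · rw [h1, h2] at h
    exact h
  · rw [h1, h2, (nbr_nbr F j).1, (nbr_nbr F j).2.1] at h
    rw [← h]
    ring

theorem h2_vanish (h2 : (2 : L) ≠ 0) (b : Fin 80 → M)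
    (hb : ∀ u v : Fin 11, ∑ t, ∑ i : Fin 3,
      (if tri t (i.succAbove 0) = u ∧ tri t (i.succAbove 1) = v then (-1 : L) ^ i.val • b t
        else 0) = 0) :
    ∃ r : Fin 40 → M, ∀ F j,
      b (rid F j) = (-1 : L) ^ j.val • r F + (-1 : L) ^ (opp F j).val • r (nbr F j) := by
  refine ⟨fun F => (2 : L)⁻¹ • ∑ s, (cR F s : L) • b s, fun F j => ?_⟩
  have key : ∑ s, ((cP (rid F j) (tri s 1) (tri s 2) - cP (rid F j) (tri s 0) (tri s 2)
        + cP (rid F j) (tri s 0) (tri s 1) : ℤ) : L) • b s = 0 := by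
    have h : ∑ u : Fin 11, ∑ v : Fin 11, ((cP (rid F j) u v : ℤ) : L) • ∑ t, ∑ i : Fin 3,
      (if tri t (i.succAbove 0) = u ∧ tri t (i.succAbove 1) = v then (-1 : L) ^ i.val • b t
        else 0) = 0 := by
      simp [hb]
    rw [← h]
    simp only [Finset.smul_sum]
    have h3 : ∀ u : Fin 11, ∑ v : Fin 11, ∑ t : Fin 80, ∑ i : Fin 3,
        (((cP (rid F j) u v : ℤ) : L) • (if tri t (i.succAbove 0) = u ∧ tri t (i.succAbove 1) = v
          then (-1 : L) ^ i.val • b t else 0)) =
        ∑ t : Fin 80, ∑ i : Fin 3, if tri t (i.succAbove 0) = u then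
          ((cP (rid F j) u (tri t (i.succAbove 1)) : ℤ) : L) • ((-1 : L) ^ i.val • b t) else 0 := by
      intro u
      rw [Finset.sum_comm]
      refine Finset.sum_congr rfl fun t _ => ?_
      rw [Finset.sum_comm]
      refine Finset.sum_congr rfl fun i _ => ?_
      rw [Finset.sum_eq_single (tri t (i.succAbove 1))]
      · by_cases hu : tri t (i.succAbove 0) = u
        · simp [hu]
        · simp [hu]
      · intro v _ hv
        rw [if_neg (fun h => hv h.2.symm), smul_zero]
      · intro h; exact absurd (Finset.mem_univ _) h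
    simp only [h3]
    rw [Finset.sum_comm]
    refine Finset.sum_congr rfl fun t _ => ?_
    rw [Finset.sum_comm]
    have h4 : ∀ i : Fin 3, ∑ u : Fin 11, (if tri t (i.succAbove 0) = u then
          ((cP (rid F j) u (tri t (i.succAbove 1)) : ℤ) : L) • ((-1 : L) ^ i.val • b t) else 0) =
        ((cP (rid F j) (tri t (i.succAbove 0)) (tri t (i.succAbove 1)) : ℤ) : L) •
          ((-1 : L) ^ i.val • b t) := by
      intro i
      rw [Finset.sum_ite_eq Finset.univ (tri t (i.succAbove 0))]
      simp
    simp only [h4]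
    rw [Fin.sum_univ_three]
    have e1 : (0 : Fin 3).succAbove (0 : Fin 2) = 1 := by decide
    have e2 : (0 : Fin 3).succAbove (1 : Fin 2) = 2 := by decide
    have e3 : (1 : Fin 3).succAbove (0 : Fin 2) = 0 := by decide
    have e4 : (1 : Fin 3).succAbove (1 : Fin 2) = 2 := by decide
    have e5 : (2 : Fin 3).succAbove (0 : Fin 2) = 0 := by decide
    have e6 : (2 : Fin 3).succAbove (1 : Fin 2) = 1 := by decide
    rw [e1, e2, e3, e4, e5, e6]
    simp only [smul_smul, ← add_smul]
    congr 1
    push_cast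
    simp
    ring
  have hc : ∀ s, (((-1) ^ j.val * cR F s + (-1) ^ (opp F j).val * cR (nbr F j) s +
      (cP (rid F j) (tri s 1) (tri s 2) - cP (rid F j) (tri s 0) (tri s 2)
        + cP (rid F j) (tri s 0) (tri s 1)) : ℤ) : L) • b s =
      if rid F j = s then (2 : L) • b s else 0 := by
    intro s
    rw [cert F j s]
    split_ifs <;> simp
  have hsum : ∑ s, (((-1) ^ j.val * cR F s + (-1) ^ (opp F j).val * cR (nbr F j) s +
      (cP (rid F j) (tri s 1) (tri s 2) - cP (rid F j) (tri s 0) (tri s 2)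
        + cP (rid F j) (tri s 0) (tri s 1)) : ℤ) : L) • b s = (2 : L) • b (rid F j) := by
    simp only [hc]
    rw [Finset.sum_ite_eq]
    simp
  have hexp : (2 : L) • b (rid F j) = (-1 : L) ^ j.val • ∑ s, (cR F s : L) • b s +
      (-1 : L) ^ (opp F j).val • ∑ s, (cR (nbr F j) s : L) • b s := by
    rw [← hsum, Finset.smul_sum, Finset.smul_sum, ← Finset.sum_add_distrib]
    rw [← sub_eq_zero, ← Finset.sum_sub_distrib, ← key]
    refine Finset.sum_congr rfl fun s _ => ?_
    push_cast
    simp only [smul_smul, add_smul, sub_smul]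
    abel
  rw [smul_comm, smul_comm ((-1 : L) ^ (opp F j).val), ← smul_add, ← hexp, smul_smul,
    inv_mul_cancel₀ h2, one_smul]

end Pool.Agent.Helper90.Aniso
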