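import Pool.Agent.Helper90.Aniso.Twist

/-!
# An isotropic quadratic element
-/

namespace Pool.Agent.Helper90.Aniso

open Matrix Module

variable {L : Type*} [Field L] (a : Fin 4 → Fin 11 → L) (x : Fin 4 → L)

/-- The diagonal bilinear form on the facet space. -/
noncomputable def eform : LinearMap.BilinForm L (Fin 40 → L) :=
  Matrix.toBilin' (Matrix.diagonal (kap a x))

theorem eform_apply (s t : Fin 40 → L) : eform a x s t = ∑ F, kap a x F * s F * t F := by
  unfold eform
  rw [Matrix.toBilin'_apply']
  simp only [dotProduct, Matrix.mulVec_diagonal]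
  refine Finset.sum_congr rfl fun F _ => by ring

theorem eform_nondeg (hg : Good a x) : (eform a x).Nondegenerate := by
  unfold eform
  apply LinearMap.BilinForm.nondegenerate_toBilin'_iff_det_ne_zero.2
  rw [Matrix.det_diagonal]
  exact Finset.prod_ne_zero_iff.2 fun F _ => kap_ne a x hg F

theorem eform_symm : (eform a x).IsSymm := by
  constructor
  intro s t
  simp only [eform_apply]
  refine Finset.sum_congr rfl fun F _ => by ring

/-- A general fact: if `T` and `U` are totally isotropic and `U` is larger, then `U` contains a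
vector orthogonal to `T` outside of `T`. -/
theorem exists_of_lt {V : Type*} [AddCommGroup V] [Module L V] [FiniteDimensional L V]
    (B : LinearMap.BilinForm L V) (hB : B.Nondegenerate) (hs : B.IsSymm) (T U : Submodule L V)
    (hU : U ≤ B.orthogonal U) (hlt : finrank L T < finrank L U) :
    ∃ w ∈ U, w ∈ B.orthogonal T ∧ w ∉ T := by
  by_contra hcon
  push Not at hcon
  have hle : U ⊓ B.orthogonal T ≤ T ⊓ U := fun w hw => ⟨hcon w hw.1 hw.2, hw.1⟩
  have hrefl : B.IsRefl := hs.isRefl
  have h1 : B.orthogonal (B.orthogonal U ⊔ T) = U ⊓ B.orthogonal T := by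
    apply le_antisymm
    · refine le_inf ?_ ?_
      · have := LinearMap.BilinForm.orthogonal_le (B := B)
          (le_sup_left : B.orthogonal U ≤ B.orthogonal U ⊔ T)
        rwa [LinearMap.BilinForm.orthogonal_orthogonal hB hrefl] at this
      · exact LinearMap.BilinForm.orthogonal_le le_sup_right
    · rintro w ⟨hw1, hw2⟩
      rw [LinearMap.BilinForm.mem_orthogonal_iff]
      intro m hm
      obtain ⟨p, hp, q, hq, rfl⟩ := Submodule.mem_sup.1 hm
      have e1 : B p w = 0 := by
        have := (LinearMap.BilinForm.mem_orthogonal_iff.1 hp) w hw1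
        exact hrefl _ _ this
      have e2 : B q w = 0 := (LinearMap.BilinForm.mem_orthogonal_iff.1 hw2) q hq
      change B (p + q) w = 0
      rw [map_add, LinearMap.add_apply, e1, e2, add_zero]
  have h2 := LinearMap.BilinForm.finrank_orthogonal hB (B.orthogonal U ⊔ T)
  have h3 := Submodule.finrank_sup_add_finrank_inf_eq (B.orthogonal U) T
  have h4 := LinearMap.BilinForm.finrank_orthogonal hB U
  have h5 : finrank L (T ⊓ U : Submodule L V) ≤ finrank L (B.orthogonal U ⊓ T : Submodule L V) :=
    Submodule.finrank_mono (le_inf (inf_le_right.trans hU) inf_le_left)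
  have h6 : finrank L (U ⊓ B.orthogonal T : Submodule L V) ≤
    finrank L (T ⊓ U : Submodule L V) := Submodule.finrank_mono hle
  have h7 := Submodule.finrank_le U
  have h8 := Submodule.finrank_le (B.orthogonal U ⊔ T)
  rw [h1] at h2
  omega

/-- The evaluation map from quadratic coefficients to the facet space. -/
noncomputable def evq : (Fin 11 × Fin 11 → L) →ₗ[L] (Fin 40 → L) where
  toFun c F := ∑ p, c p * (cov a x F p.1 * cov a x F p.2)
  map_add' c d := by
    funext F
    simp [add_mul, Finset.sum_add_distrib]
  map_smul' r c := by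
    funext F
    simp [Finset.mul_sum, mul_assoc]

/-- The evaluation map on linear functions. -/
noncomputable def t1l : (Fin 11 → L) →ₗ[L] (Fin 40 → L) where
  toFun g := t1 a x g
  map_add' c d := by
    funext F
    simp [t1, add_mul, Finset.sum_add_distrib, mul_add]
  map_smul' r c := by
    funext F
    simp only [t1, Pi.smul_apply, smul_eq_mul, RingHom.id_apply, mul_assoc, ← Finset.mul_sum]
    ring

/-- The evaluation map on twisted linear functions. -/
noncomputable def tLl : (Fin 11 → L) →ₗ[L] (Fin 40 → L) where
  toFun g := tL a x g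
  map_add' c d := by
    funext F
    simp [tL, add_mul, Finset.sum_add_distrib, mul_add]
  map_smul' r c := by
    funext F
    simp only [tL, Pi.smul_apply, smul_eq_mul, RingHom.id_apply, Finset.mul_sum]
    refine Finset.sum_congr rfl fun v _ => by ring

theorem exists_isotropic (hg : Good a x) (h2 : (2 : L) ≠ 0) :
    ∃ c : Fin 11 × Fin 11 → L,
      (∑ F, kap a x F * evq a x c F * evq a x c F = 0) ∧
      ∃ u v, ∑ F, kap a x F * evq a x c F * (cov a x F u * cov a x F v) ≠ 0 := by
  have hB := eform_nondeg a x hg
  have hs := eform_symm a x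
  have hrefl : (eform a x).IsRefl := hs.isRefl
  have hU : LinearMap.range (tLl a x) ≤ (eform a x).orthogonal (LinearMap.range (tLl a x)) := by
    rintro _ ⟨g, rfl⟩
    rw [LinearMap.BilinForm.mem_orthogonal_iff]
    rintro _ ⟨h, rfl⟩
    change eform a x _ _ = 0
    rw [eform_apply]
    exact tL_iso a x hg h g
  have hlt : finrank L (LinearMap.range (t1l a x)) < finrank L (LinearMap.range (tLl a x)) := by
    have e1 : finrank L (LinearMap.range (tLl a x)) = 11 := by
      rw [LinearMap.finrank_range_of_inj, Module.finrank_fin_fun]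
      rw [← LinearMap.ker_eq_bot, LinearMap.ker_eq_bot']
      intro g hgz
      exact tL_inj a x hg h2 g (fun F => congrFun hgz F)
    have e2 := LinearMap.finrank_range_add_finrank_ker (t1l a x)
    rw [Module.finrank_fin_fun] at e2
    have e3 : 0 < finrank L (LinearMap.ker (t1l a x)) := by
      obtain ⟨g, hg0, hg1⟩ := t1_ker a x hg
      rw [Module.finrank_pos_iff_exists_ne_zero]
      refine ⟨⟨g, ?_⟩, fun h => hg0 (congrArg Subtype.val h)⟩
      rw [LinearMap.mem_ker]
      funext F
      exact hg1 F
    omega
  obtain ⟨w, hwU, hwT, hwn⟩ := exists_of_lt (eform a x) hB hs (LinearMap.range (t1l a x))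
    (LinearMap.range (tLl a x)) hU hlt
  -- duality
  have hdual : ∀ s : Fin 40 → L,
      (∀ u v, ∑ F, kap a x F * s F * (cov a x F u * cov a x F v) = 0) →
      s ∈ LinearMap.range (t1l a x) := by
    intro s hs'
    obtain ⟨g, hg'⟩ := duality a x hg h2 s (fun u v => hs' u v)
    exact ⟨g, funext fun F => (hg' F).symm⟩
  have hsingle : ∀ u v F, evq a x (Pi.single (u, v) 1) F = cov a x F u * cov a x F v := by
    intro u v F
    change ∑ p, (Pi.single (u, v) (1 : L) : Fin 11 × Fin 11 → L) p *
      (cov a x F p.1 * cov a x F p.2) = _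
    rw [Finset.sum_eq_single (u, v)]
    · simp
    · intro p _ hp
      rw [Pi.single_eq_of_ne hp, zero_mul]
    · simp
  have hI : (eform a x).orthogonal (LinearMap.range (evq a x)) ≤ LinearMap.range (t1l a x) := by
    intro s hs'
    apply hdual
    intro u v
    have := (LinearMap.BilinForm.mem_orthogonal_iff.1 hs') (evq a x (Pi.single (u, v) 1)) ⟨_, rfl⟩
    change eform a x _ _ = 0 at this
    rw [eform_apply] at this
    rw [← this]
    refine Finset.sum_congr rfl fun F _ => ?_
    rw [hsingle]
    ring
  have hwI : w ∈ LinearMap.range (evq a x) := by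
    have h := LinearMap.BilinForm.orthogonal_le hI hwT
    rwa [LinearMap.BilinForm.orthogonal_orthogonal hB hrefl] at h
  obtain ⟨c, rfl⟩ := hwI
  refine ⟨c, ?_, ?_⟩
  · have h := (LinearMap.BilinForm.mem_orthogonal_iff.1 (hU hwU)) _ hwU
    change eform a x _ _ = 0 at h
    rw [eform_apply] at h
    exact h
  · by_contra hcon
    push Not at hcon
    exact hwn (hdual _ hcon)

end Pool.Agent.Helper90.Aniso
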