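import Pool.Agent.Helper90.Aniso.Geo

/-!
# A determinantal identity
-/

namespace Pool.Agent.Helper90.Aniso

open Matrix

variable {L : Type*} [Field L]

theorem det4 (M : Matrix (Fin 4) (Fin 4) L) : M.det =
    M 0 0 * (M 1 1 * (M 2 2 * M 3 3 - M 2 3 * M 3 2) - M 1 2 * (M 2 1 * M 3 3 - M 2 3 * M 3 1)
      + M 1 3 * (M 2 1 * M 3 2 - M 2 2 * M 3 1))
    - M 0 1 * (M 1 0 * (M 2 2 * M 3 3 - M 2 3 * M 3 2) - M 1 2 * (M 2 0 * M 3 3 - M 2 3 * M 3 0)
      + M 1 3 * (M 2 0 * M 3 2 - M 2 2 * M 3 0))
    + M 0 2 * (M 1 0 * (M 2 1 * M 3 3 - M 2 3 * M 3 1) - M 1 1 * (M 2 0 * M 3 3 - M 2 3 * M 3 0)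
      + M 1 3 * (M 2 0 * M 3 1 - M 2 1 * M 3 0))
    - M 0 3 * (M 1 0 * (M 2 1 * M 3 2 - M 2 2 * M 3 1) - M 1 1 * (M 2 0 * M 3 2 - M 2 2 * M 3 0)
      + M 1 2 * (M 2 0 * M 3 1 - M 2 1 * M 3 0)) := by
  rw [Matrix.det_succ_row_zero, Fin.sum_univ_four]
  simp only [Matrix.det_fin_three, Matrix.submatrix_apply]
  simp [Fin.succAbove, Fin.lt_def]
  ring

/-- The product formula for two replaced columns. -/
theorem jacobi (A : Matrix (Fin 4) (Fin 4) L) (x y : Fin 4 → L) (r t : Fin 4)
    (hrt : r ≠ t) :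
    A.cramer x r * A.cramer y t - A.cramer x t * A.cramer y r =
      A.det * ((A.updateCol r x).updateCol t y).det := by
  have hy : A.det • y = ∑ k, A.cramer y k • (fun i => A i k) := by
    have := Matrix.mulVec_cramer A y
    rw [← this]
    funext i
    simp [Matrix.mulVec, dotProduct, Finset.sum_apply, mul_comm]
  have h1 : A.det * ((A.updateCol r x).updateCol t y).det =
      (A.updateCol r x).cramer (A.det • y) t := by
    rw [map_smul, Pi.smul_apply, Matrix.cramer_apply, smul_eq_mul]
  rw [h1, hy, map_sum]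
  simp only [map_smul, Finset.sum_apply, Pi.smul_apply, smul_eq_mul]
  have h2 : ∀ k, k ≠ r → (A.updateCol r x).cramer (fun i => A i k) t =
      if k = t then A.cramer x r else 0 := by
    intro k hk
    rw [Matrix.cramer_row_self (A := A.updateCol r x) (b := fun i => A i k) k
      (fun i => by rw [Matrix.updateCol_ne hk]), ← Matrix.cramer_apply]
    by_cases hkt : k = t
    · subst hkt; simp
    · simp [hkt, Ne.symm hkt]
  have h3 : (A.updateCol r x).cramer (fun i => A i r) t = - A.cramer x t := by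
    rw [Matrix.cramer_apply, Matrix.cramer_apply]
    have : (A.updateCol r x).updateCol t (fun i => A i r) =
        (A.updateCol t x).submatrix id (Equiv.swap r t) := by
      ext i j
      simp only [Matrix.submatrix_apply, id, Matrix.updateCol_apply]
      by_cases hjt : j = t
      · subst hjt
        simp [hrt]
      · by_cases hjr : j = r
        · subst hjr
          simp [hrt]
        · rw [Equiv.swap_apply_of_ne_of_ne hjr hjt]
          simp [hjt, hjr]
    rw [this, Matrix.det_permute']
    simp [Equiv.Perm.sign_swap hrt]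
  have h4 : ∀ k, A.cramer y k * (A.updateCol r x).cramer (fun i => A i k) t =
      (if k = t then A.cramer y t * A.cramer x r else 0) -
        (if k = r then A.cramer y r * A.cramer x t else 0) := by
    intro k
    by_cases hkr : k = r
    · subst hkr
      rw [h3]
      simp [hrt]
    · rw [h2 k hkr]
      by_cases hkt : k = t
      · subst hkt; simp [hkr]
      · simp [hkt, hkr]
  simp only [h4, Finset.sum_sub_distrib, Finset.sum_ite_eq', Finset.mem_univ, if_true]
  ring

/-- The functional attached to an edge. -/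
def om (a : Fin 4 → Fin 11 → L) (x y : Fin 4 → L) (u v : Fin 11) : L :=
  (Matrix.of fun i j : Fin 4 => (![a i u, a i v, y i, x i] : Fin 4 → L) j).det

theorem om_01 (a : Fin 4 → Fin 11 → L) (x y : Fin 4 → L) (G : Fin 40) :
    (((facM a G).updateCol 2 x).updateCol 3 y).det = - om a x y (fac G 0) (fac G 1) := by
  unfold om
  rw [det4, det4]
  simp [facM]
  ring

theorem om_02 (a : Fin 4 → Fin 11 → L) (x y : Fin 4 → L) (G : Fin 40) :
    (((facM a G).updateCol 1 x).updateCol 3 y).det = om a x y (fac G 0) (fac G 2) := by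
  unfold om
  rw [det4, det4]
  simp [facM]
  ring

theorem om_03 (a : Fin 4 → Fin 11 → L) (x y : Fin 4 → L) (G : Fin 40) :
    (((facM a G).updateCol 1 x).updateCol 2 y).det = - om a x y (fac G 0) (fac G 3) := by
  unfold om
  rw [det4, det4]
  simp [facM]
  ring

theorem om_12 (a : Fin 4 → Fin 11 → L) (x y : Fin 4 → L) (G : Fin 40) :
    (((facM a G).updateCol 0 x).updateCol 3 y).det = - om a x y (fac G 1) (fac G 2) := by
  unfold om
  rw [det4, det4]
  simp [facM]
  ring

theorem om_13 (a : Fin 4 → Fin 11 → L) (x y : Fin 4 → L) (G : Fin 40) :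
    (((facM a G).updateCol 0 x).updateCol 2 y).det = om a x y (fac G 1) (fac G 3) := by
  unfold om
  rw [det4, det4]
  simp [facM]
  ring

theorem om_23 (a : Fin 4 → Fin 11 → L) (x y : Fin 4 → L) (G : Fin 40) :
    (((facM a G).updateCol 0 x).updateCol 1 y).det = - om a x y (fac G 2) (fac G 3) := by
  unfold om
  rw [det4, det4]
  simp [facM]
  ring

end Pool.Agent.Helper90.Aniso
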