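import Pool.Agent.Helper90.Aniso.Descent

/-!
# The main theorem: no Artinian reduction of the explicit complex is totally anisotropic
-/

namespace Pool.Agent.Helper90.Aniso

open Matrix MvPolynomial

variable {K : Type*} [Field K] (a : Fin 4 → Fin 11 → K)

theorem prod_mem_piece (k : ℕ) (f : Fin k → Fin 11) : ∏ i, xb a (f i) ∈ piece cplx a k := by
  refine ⟨∏ i, X (f i), ?_, ?_⟩
  · have := IsHomogeneous.prod Finset.univ (fun i => (X (f i) : MvPolynomial (Fin 11) K))
      (fun _ => 1) (fun i _ => isHomogeneous_X K (f i))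
    simpa using this
  · change Ideal.Quotient.mk (relIdeal cplx a) (∏ i, X (f i)) = _
    rw [map_prod]
    rfl

theorem piece_four (hd : ∀ F, (facM a F).det ≠ 0) :
    piece cplx a 4 = Submodule.span K {pf a 0} := by
  apply le_antisymm
  · rintro _ ⟨q, hq, rfl⟩
    have h := ext_hom ((Submodule.mkQ (Submodule.span K {pf a 0})) ∘ₗ
      (Ideal.Quotient.mkₐ K (relIdeal cplx a)).toLinearMap) 4 (by
        intro f
        rw [LinearMap.comp_apply, Submodule.mkQ_apply, Submodule.Quotient.mk_eq_zero]
        obtain ⟨c, hc⟩ := mono_span a hd f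
        have : (Ideal.Quotient.mkₐ K (relIdeal cplx a)).toLinearMap (∏ i, X (f i)) =
            ∏ i, xb a (f i) := by
          change Ideal.Quotient.mk (relIdeal cplx a) (∏ i, X (f i)) = _
          rw [map_prod]
          rfl
        rw [this, hc]
        exact Submodule.smul_mem _ _ (Submodule.mem_span_singleton_self _)) q hq
    rw [LinearMap.comp_apply, Submodule.mkQ_apply, Submodule.Quotient.mk_eq_zero] at h
    exact h
  · rw [Submodule.span_le, Set.singleton_subset_iff]
    exact prod_mem_piece a 4 (fac 0)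

/-- The value of the degree functional on the base facet. -/
noncomputable def dzero : FractionRing (Polynomial K) :=
  kap (ext (FractionRing (Polynomial K)) a) (xi K) 0 *
    ∏ i, co (ext (FractionRing (Polynomial K)) a) (xi K) 0 i

theorem dzero_ne (hd : ∀ F, (facM a F).det ≠ 0) : dzero a ≠ 0 := by
  have hg := good_xi a hd
  exact mul_ne_zero (kap_ne _ _ hg 0) (Finset.prod_ne_zero_iff.2 fun i _ => hg.co_ne _ _)

theorem dg_of_eq (hd : ∀ F, (facM a F).det ≠ 0) (f : Fin 4 → Fin 11) (c : K)
    (h : ∏ i, xb a (f i) = c • pf a 0) :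
    ∑ F, kap (ext (FractionRing (Polynomial K)) a) (xi K) F *
      ∏ i, cov (ext (FractionRing (Polynomial K)) a) (xi K) F (f i) =
      algebraMap K (FractionRing (Polynomial K)) c * dzero a := by
  have hg := good_xi a hd
  have h1 : (∏ i, X (f i) - c • ∏ i, X (fac 0 i) : MvPolynomial (Fin 11) K) ∈
      relIdeal cplx a := by
    rw [← Ideal.Quotient.eq_zero_iff_mem, map_sub, sub_eq_zero]
    have e1 : Ideal.Quotient.mk (relIdeal cplx a) (∏ i, X (f i)) = ∏ i, xb a (f i) := by
      rw [map_prod]; rfl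
    have e2 : Ideal.Quotient.mk (relIdeal cplx a) (c • ∏ i, X (fac 0 i)) = c • pf a 0 := by
      have : Ideal.Quotient.mk (relIdeal cplx a) (∏ i, X (fac 0 i)) = pf a 0 := by
        rw [map_prod]; rfl
      rw [← this]
      rfl
    rw [e1, e2, h]
  have h2 := dg_rel a (xi K) hg _ h1
  rw [map_sub, map_smul, dg_prod, dg_facet, sub_eq_zero] at h2
  rw [h2, Algebra.smul_def]
  rfl

theorem smul_pf (hd : ∀ F, (facM a F).det ≠ 0) (c : K) (h : c • pf a 0 = 0) : c = 0 := by
  have hg := good_xi a hd
  have h1 : (c • ∏ i, X (fac 0 i) : MvPolynomial (Fin 11) K) ∈ relIdeal cplx a := by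
    rw [← Ideal.Quotient.eq_zero_iff_mem]
    have : Ideal.Quotient.mk (relIdeal cplx a) (∏ i, X (fac 0 i)) = pf a 0 := by
      rw [map_prod]; rfl
    rw [← h, ← this]
    rfl
  have h2 := dg_rel a (xi K) hg _ h1
  rw [map_smul, dg_facet, Algebra.smul_def] at h2
  have h3 := (mul_eq_zero.1 h2).resolve_right (dzero_ne a hd)
  exact (FaithfulSMul.algebraMap_injective K (FractionRing (Polynomial K)))
    (h3.trans (map_zero _).symm)

theorem main_elt (h2 : (2 : K) ≠ 0) (hl : IsLSOP cplx a) :
    ∃ u ∈ piece cplx a 2, u ^ 2 = 0 ∧ ∃ v ∈ piece cplx a 2, u * v ≠ 0 := by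
  have hd := det_ne_of_lsop a hl
  have hg := good_xi a hd
  have h2L : (2 : FractionRing (Polynomial K)) ≠ 0 := by
    intro h
    apply h2
    apply FaithfulSMul.algebraMap_injective K (FractionRing (Polynomial K))
    rw [map_zero, map_ofNat]
    exact h
  obtain ⟨c, hc1, u₀, v₀, hc2⟩ := exists_isotropic (ext (FractionRing (Polynomial K)) a) (xi K)
    hg h2L
  have hsp : ∀ p q : Fin 11 × Fin 11, ∃ r : K,
      ∏ i, xb a ((![p.1, p.2, q.1, q.2] : Fin 4 → Fin 11) i) = r • pf a 0 :=
    fun p q => mono_span a hd _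
  choose γ hγ using hsp
  have hprod : ∀ p q : Fin 11 × Fin 11,
      xb a p.1 * xb a p.2 * (xb a q.1 * xb a q.2) = γ p q • pf a 0 := by
    intro p q
    rw [← hγ p q, Fin.prod_univ_four]
    simp [mul_assoc]
  have hsymm : ∀ p q, γ p q = γ q p := by
    intro p q
    have h3 : (γ p q - γ q p) • pf a 0 = 0 := by
      rw [sub_smul, ← hprod, ← hprod, sub_eq_zero, mul_comm]
    exact sub_eq_zero.1 (smul_pf a hd _ h3)
  have hval : ∀ p q : Fin 11 × Fin 11,
      ∑ F, kap (ext (FractionRing (Polynomial K)) a) (xi K) F *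
        (cov (ext (FractionRing (Polynomial K)) a) (xi K) F p.1 *
          cov (ext (FractionRing (Polynomial K)) a) (xi K) F p.2) *
        (cov (ext (FractionRing (Polynomial K)) a) (xi K) F q.1 *
          cov (ext (FractionRing (Polynomial K)) a) (xi K) F q.2) =
      algebraMap K (FractionRing (Polynomial K)) (γ p q) * dzero a := by
    intro p q
    rw [← dg_of_eq a hd _ _ (hγ p q)]
    refine Finset.sum_congr rfl fun F _ => ?_
    rw [Fin.prod_univ_four]
    simp
    ring
  have hD := dzero_ne a hd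
  have hevq : ∀ F, evq (ext (FractionRing (Polynomial K)) a) (xi K) c F =
      ∑ p, c p * (cov (ext (FractionRing (Polynomial K)) a) (xi K) F p.1 *
        cov (ext (FractionRing (Polynomial K)) a) (xi K) F p.2) := fun F => rfl
  obtain ⟨c₀, h3, q, h4⟩ := descent γ hsymm c (by
    have h5 : (∑ p, ∑ q, c p * c q * algebraMap K (FractionRing (Polynomial K)) (γ p q)) *
        dzero a = 0 := by
      rw [← hc1]
      simp only [hevq]
      rw [Finset.sum_mul]
      have h6 : ∀ p, (∑ q, c p * c q * algebraMap K (FractionRing (Polynomial K)) (γ p q)) *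
          dzero a = ∑ F, ∑ q, kap (ext (FractionRing (Polynomial K)) a) (xi K) F *
        (c p * (cov (ext (FractionRing (Polynomial K)) a) (xi K) F p.1 *
          cov (ext (FractionRing (Polynomial K)) a) (xi K) F p.2)) *
        (c q * (cov (ext (FractionRing (Polynomial K)) a) (xi K) F q.1 *
          cov (ext (FractionRing (Polynomial K)) a) (xi K) F q.2)) := by
        intro p
        rw [Finset.sum_mul, Finset.sum_comm]
        refine Finset.sum_congr rfl fun q _ => ?_
        rw [mul_assoc, ← hval p q, Finset.mul_sum]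
        refine Finset.sum_congr rfl fun F _ => by ring
      simp only [h6]
      rw [Finset.sum_comm]
      refine Finset.sum_congr rfl fun F _ => ?_
      rw [Finset.mul_sum, Finset.sum_comm]
      refine Finset.sum_congr rfl fun p _ => ?_
      rw [Finset.mul_sum, Finset.sum_mul]
    exact (mul_eq_zero.1 h5).resolve_right hD) ⟨(u₀, v₀), by
    intro h5
    apply hc2
    have h6 : (∑ p, c p * algebraMap K (FractionRing (Polynomial K)) (γ p (u₀, v₀))) *
        dzero a = 0 := by rw [h5, zero_mul]
    rw [← h6, Finset.sum_mul]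
    simp only [hevq, mul_assoc, ← hval]
    simp only [Finset.mul_sum, Finset.sum_mul]
    rw [Finset.sum_comm]
    refine Finset.sum_congr rfl fun p _ => Finset.sum_congr rfl fun F _ => by ring⟩
  have hpiece : ∀ p : Fin 11 × Fin 11, xb a p.1 * xb a p.2 ∈ piece cplx a 2 := by
    intro p
    have := prod_mem_piece a 2 ![p.1, p.2]
    rw [Fin.prod_univ_two] at this
    exact this
  refine ⟨∑ p, c₀ p • (xb a p.1 * xb a p.2), ?_, ?_, xb a q.1 * xb a q.2, hpiece q, ?_⟩
  · exact Submodule.sum_mem _ fun p _ => Submodule.smul_mem _ _ (hpiece p)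
  · have : (∑ p, c₀ p • (xb a p.1 * xb a p.2)) ^ 2 =
        (∑ p, ∑ q, c₀ p * c₀ q * γ p q) • pf a 0 := by
      rw [sq, Finset.sum_mul_sum, Finset.sum_smul]
      refine Finset.sum_congr rfl fun p _ => ?_
      rw [Finset.sum_smul]
      refine Finset.sum_congr rfl fun q _ => ?_
      rw [smul_mul_smul_comm, hprod, smul_smul]
    rw [this, h3, zero_smul]
  · have : (∑ p, c₀ p • (xb a p.1 * xb a p.2)) * (xb a q.1 * xb a q.2) =
        (∑ p, c₀ p * γ p q) • pf a 0 := by
      rw [Finset.sum_mul, Finset.sum_smul]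
      refine Finset.sum_congr rfl fun p _ => ?_
      rw [smul_mul_assoc, hprod, smul_smul]
    rw [this]
    intro h5
    exact h4 (smul_pf a hd _ h5)

theorem finrank_top (hl : IsLSOP cplx a) : Module.finrank K (piece cplx a 4) = 1 := by
  have hd := det_ne_of_lsop a hl
  rw [piece_four a hd]
  apply finrank_span_singleton
  intro h
  have := smul_pf a hd 1 (by rw [h, smul_zero])
  exact one_ne_zero this

theorem main_all (h2 : (2 : K) ≠ 0) (hl : IsLSOP cplx a) (ε : Artin cplx a →ₗ[K] K)
    (hε : ∃ w ∈ piece cplx a 4, ε w ≠ 0) : ¬ TotAn0 ε := by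
  intro ht
  have hd := det_ne_of_lsop a hl
  obtain ⟨u, hu, hu2, v, hv, huv⟩ := main_elt a h2 hl
  obtain ⟨w, hw, hεw⟩ := hε
  refine ht 2 (by norm_num) u hu ?_ ?_
  · rintro ⟨_, h⟩
    have h1 := h v hv
    have huv4 : u * v ∈ piece cplx a 4 := by
      obtain ⟨p, hp, rfl⟩ := hu
      obtain ⟨q, hq, rfl⟩ := hv
      refine ⟨p * q, ?_, map_mul (Ideal.Quotient.mkₐ K (relIdeal cplx a)) p q⟩
      exact IsHomogeneous.mul hp hq
    rw [piece_four a hd] at huv4 hw
    obtain ⟨r, hr⟩ := Submodule.mem_span_singleton.1 huv4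
    obtain ⟨s, hs⟩ := Submodule.mem_span_singleton.1 hw
    have hr0 : r ≠ 0 := by
      rintro rfl
      rw [zero_smul] at hr
      exact huv hr.symm
    rw [← hr, map_smul, smul_eq_mul] at h1
    rw [← hs, map_smul, smul_eq_mul, (mul_eq_zero.1 h1).resolve_left hr0, mul_zero] at hεw
    exact hεw rfl
  · rw [hu2]
    exact ⟨Submodule.zero_mem _, fun v _ => by rw [zero_mul, map_zero]⟩

end Pool.Agent.Helper90.Aniso
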