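import Pool.Agent.Helper90.Aniso.Defs

/-!
# Reducible versions of the definitions, used in the proofs
-/

namespace Pool.Agent.Helper90.Aniso

open MvPolynomial

variable {n : ℕ} {K : Type*} [Field K]

/-- The quotient `A = K[S] / (θ_1, …, θ_d)` of the face ring. -/
abbrev Artin {d : ℕ} (S : AbstractSimplicialComplex (Fin n)) (a : Fin d → Fin n → K) : Type _ :=
  MvPolynomial (Fin n) K ⧸ relIdeal S a

/-- The graded piece `A^j`. -/
noncomputable def piece {d : ℕ} (S : AbstractSimplicialComplex (Fin n)) (a : Fin d → Fin n → K)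
    (j : ℕ) : Submodule K (Artin S a) :=
  (homogeneousSubmodule (Fin n) K j).map (Ideal.Quotient.mkₐ K (relIdeal S a)).toLinearMap

/-- `θ_1, …, θ_d` is a linear system of parameters: `A` is a finite dimensional vector space. -/
def IsLSOP {d : ℕ} (S : AbstractSimplicialComplex (Fin n)) (a : Fin d → Fin n → K) : Prop :=
  Module.Finite K (Artin S a)

/-- The degree `j` part of the ideal `L` of elements that pair to zero with everything, the pairing
being `A^j × A^{d-j} → A^d → K` for a linear functional `ε` (in the problem, evaluation at the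
fundamental class). -/
def InRad0 {d : ℕ} {S : AbstractSimplicialComplex (Fin n)} {a : Fin d → Fin n → K}
    (ε : Artin S a →ₗ[K] K) (j : ℕ) (u : Artin S a) : Prop :=
  u ∈ piece S a j ∧ ∀ v ∈ piece S a (d - j), ε (u * v) = 0

/-- Total anisotropy of `B = A / L`: for `2 j ≤ d`, an element of `A^j` that is nonzero in `B^j` has
nonzero square in `B^{2j}`. -/
def TotAn0 {d : ℕ} {S : AbstractSimplicialComplex (Fin n)} {a : Fin d → Fin n → K}
    (ε : Artin S a →ₗ[K] K) : Prop :=
  ∀ j, 2 * j ≤ d → ∀ u ∈ piece S a j, ¬ InRad0 ε j u → ¬ InRad0 ε (2 * j) (u ^ 2)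

end Pool.Agent.Helper90.Aniso
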