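import Pool.Agent.Helper90.Aniso.Cplx
import Pool.Agent.Helper90.Aniso.Iso
import Pool.Agent.Helper90.Aniso.Quot

/-!
# The top degree of the Artinian reduction is a line
-/

namespace Pool.Agent.Helper90.Aniso

open Matrix MvPolynomial

variable {K : Type*} [Field K] (a : Fin 4 → Fin 11 → K)

/-- The image of a variable in the Artinian reduction. -/
noncomputable def xb (v : Fin 11) : Artin cplx a := Ideal.Quotient.mk _ (X v)

theorem rel_i (i : Fin 4) : ∑ v, a i v • xb a v = 0 := by
  have h : (Ideal.Quotient.mk (relIdeal cplx a)) (linForm (a i)) = 0 := by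
    rw [Ideal.Quotient.eq_zero_iff_mem]
    exact Ideal.mem_sup_right (Ideal.subset_span ⟨i, rfl⟩)
  rw [← h]
  unfold linForm xb
  rw [map_sum]
  refine Finset.sum_congr rfl fun v _ => ?_
  rw [← MvPolynomial.smul_eq_C_mul]
  rfl

theorem rel (z : Fin 4 → K) : ∑ v, (∑ i, z i * a i v) • xb a v = 0 := by
  simp only [Finset.sum_smul]
  rw [Finset.sum_comm]
  refine Finset.sum_eq_zero fun i _ => ?_
  simp only [mul_smul]
  rw [← Finset.smul_sum, rel_i, smul_zero]

theorem nonface (s : Finset (Fin 11)) (hs : s.Nonempty) (h : ¬ ∃ F, s ⊆ fset F) :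
    ∏ v ∈ s, xb a v = 0 := by
  have h1 : (Ideal.Quotient.mk (relIdeal cplx a)) (∏ v ∈ s, X v) = 0 := by
    rw [Ideal.Quotient.eq_zero_iff_mem]
    apply Ideal.mem_sup_left
    apply Ideal.subset_span
    exact ⟨s, hs, fun hm => h hm.2, rfl⟩
  rw [← h1, map_prod]
  rfl

theorem nonface' {k : ℕ} (f : Fin (k + 1) → Fin 11) (h : ¬ ∃ G, ∀ i, ∃ j, fac G j = f i) :
    ∏ i, xb a (f i) = 0 := by
  rw [Finset.prod_comp (fun v => xb a v) f]
  have h1 : ∏ v ∈ Finset.univ.image f, xb a v = 0 := by
    apply nonface
    · exact ⟨f 0, by simp⟩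
    · rintro ⟨G, hG⟩
      exact h ⟨G, fun i => (mem_fset G _).1 (hG (by simp))⟩
  have h2 : ∏ v ∈ Finset.univ.image f, xb a v ∣ ∏ v ∈ Finset.univ.image f,
      xb a v ^ (Finset.univ.filter fun i => f i = v).card := by
    apply Finset.prod_dvd_prod_of_dvd
    intro v hv
    obtain ⟨i, _, hi⟩ := Finset.mem_image.1 hv
    apply dvd_pow_self
    rw [← Nat.pos_iff_ne_zero, Finset.card_pos]
    exact ⟨i, by simp [hi]⟩
  rw [h1, zero_dvd_iff] at h2
  exact h2

/-- The monomial of a facet. -/
noncomputable def pf (F : Fin 40) : Artin cplx a := ∏ j, xb a (fac F j)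

theorem pf_adj (hd : ∀ F, (facM a F).det ≠ 0) (F : Fin 40) (j : Fin 4) :
    ∃ c : K, pf a F = c • pf a (nbr F j) := by
  obtain ⟨z, hz⟩ := exists_fun (facM a F) (hd F) (Pi.single j 1)
  set q : Fin 11 → K := fun v => ∑ i, z i * a i v with hq
  have hqF : ∀ k, q (fac F k) = (Pi.single j (1 : K) : Fin 4 → K) k := fun k => hz k
  set Q : Artin cplx a := ∏ i : Fin 3, xb a (fac F (j.succAbove i)) with hQ
  have h0 : ∑ v, q v • (xb a v * Q) = 0 := by
    have := congrArg (· * Q) (rel a z)
    simp only [zero_mul, Finset.sum_mul, smul_mul_assoc] at this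
    exact this
  have hne : fac F j ≠ fac (nbr F j) (opp F j) := by
    intro h
    apply (nbr_nbr F j).2.2
    apply fset_inj
    rw [← insert_rset F j, ← insert_rset (nbr F j) (opp F j), rset_nbr, h]
  have h1 : xb a (fac F j) * Q = pf a F := by
    unfold pf
    rw [Fin.prod_univ_succAbove _ j]
  have h2 : xb a (fac (nbr F j) (opp F j)) * Q = pf a (nbr F j) := by
    unfold pf
    rw [Fin.prod_univ_succAbove _ (opp F j)]
    simp only [fac_nbr]
    rfl
  rw [← Finset.sum_subset (Finset.subset_univ {fac F j, fac (nbr F j) (opp F j)}),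
    Finset.sum_pair hne, h1, h2, hqF, Pi.single_eq_same, one_smul] at h0
  · exact ⟨- q (fac (nbr F j) (opp F j)), by rw [neg_smul]; exact eq_neg_of_add_eq_zero_left h0⟩
  · intro v _ hv
    rw [Finset.mem_insert, Finset.mem_singleton, not_or] at hv
    by_cases hvF : ∃ k, fac F k = v
    · obtain ⟨k, rfl⟩ := hvF
      have hk : k ≠ j := fun h => hv.1 (by rw [h])
      rw [hqF, Pi.single_eq_of_ne hk, zero_smul]
    · have h3 : xb a v * Q = 0 := by
        have h4 := nonface' a (Fin.cons v (fun i : Fin 3 => fac F (j.succAbove i)) :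
          Fin 4 → Fin 11) (by
            rintro ⟨G, hG⟩
            have hsub : ∀ i : Fin 3, ∃ k, fac G k = fac F (j.succAbove i) := by
              intro i
              have := hG i.succ
              simpa using this
            obtain ⟨k, hk⟩ := hG 0
            simp only [Fin.cons_zero] at hk
            rcases ridge_only F j G hsub with rfl | rfl
            · exact hvF ⟨k, hk⟩
            · by_cases hko : k = opp F j
              · exact hv.2 (by rw [← hko, hk])
              · obtain ⟨i, hi⟩ := Fin.exists_succAbove_eq hko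
                rw [← hi, fac_nbr] at hk
                exact hvF ⟨_, hk⟩)
        rw [Fin.prod_univ_succ] at h4
        simpa using h4
      rw [h3, smul_zero]

theorem pf_span (hd : ∀ F, (facM a F).det ≠ 0) (m : ℕ) :
    ∀ F, depF F = m → ∃ c : K, pf a F = c • pf a 0 := by
  induction m using Nat.strong_induction_on with
  | _ m ih =>
    intro F hF
    rcases fsg_tree F with h | ⟨h, _⟩
    · exact ⟨1, by rw [h, one_smul]⟩
    · obtain ⟨c, hc⟩ := pf_adj a hd F (nxtF F)
      obtain ⟨c', hc'⟩ := ih _ (hF ▸ h) _ rfl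
      exact ⟨c * c', by rw [hc, hc', smul_smul]⟩

theorem mono_span (hd : ∀ F, (facM a F).det ≠ 0) (f : Fin 4 → Fin 11) :
    ∃ c : K, ∏ i, xb a (f i) = c • pf a 0 := by
  generalize hm : 4 - (Finset.univ.image f).card = m
  induction m using Nat.strong_induction_on generalizing f with
  | _ m ih =>
  by_cases hex : ∃ G, ∀ i, ∃ j, fac G j = f i
  · obtain ⟨G, hG⟩ := hex
    by_cases hinj : Function.Injective f
    · choose e he using hG
      have hei : Function.Injective e := fun i k hik => hinj (by rw [← he, ← he, hik])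
      have h1 : ∏ i, xb a (f i) = pf a G := by
        calc ∏ i, xb a (f i) = ∏ i, xb a (fac G (e i)) :=
              Finset.prod_congr rfl fun i _ => by rw [he i]
          _ = pf a G := Equiv.prod_comp
              (Equiv.ofBijective e (Finite.injective_iff_bijective.1 hei))
              (fun i => xb a (fac G i))
      rw [h1]
      exact pf_span a hd _ G rfl
    · rw [Function.Injective] at hinj
      push Not at hinj
      obtain ⟨i₁, i₂, hf, h12⟩ := hinj
      obtain ⟨y₀, hy₀⟩ := hG i₁
      obtain ⟨z, hz⟩ := exists_fun (facM a G) (hd G) (Pi.single y₀ 1)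
      set q : Fin 11 → K := fun v => ∑ i, z i * a i v with hq
      have hqG : ∀ k, q (fac G k) = (Pi.single y₀ (1 : K) : Fin 4 → K) k := fun k => hz k
      have hprod : ∀ v, ∏ i, xb a (Function.update f i₁ v i) =
          xb a v * ∏ i ∈ Finset.univ.erase i₁, xb a (f i) := by
        intro v
        rw [← Finset.mul_prod_erase Finset.univ _ (Finset.mem_univ i₁), Function.update_self]
        congr 1
        refine Finset.prod_congr rfl fun i hi => ?_
        rw [Function.update_of_ne (Finset.ne_of_mem_erase hi)]
      have hsum : ∑ v, q v • ∏ i, xb a (Function.update f i₁ v i) = 0 := by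
        simp only [hprod]
        have := congrArg (· * ∏ i ∈ Finset.univ.erase i₁, xb a (f i)) (rel a z)
        simp only [zero_mul, Finset.sum_mul, smul_mul_assoc] at this
        exact this
      rw [← Finset.add_sum_erase Finset.univ _ (Finset.mem_univ (f i₁)),
        Function.update_eq_self] at hsum
      have hq1 : q (f i₁) = 1 := by rw [← hy₀, hqG, Pi.single_eq_same]
      rw [hq1, one_smul] at hsum
      have hterm : ∀ v ∈ Finset.univ.erase (f i₁), ∃ c : K,
          q v • ∏ i, xb a (Function.update f i₁ v i) = c • pf a 0 := by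
        intro v hv
        have hv' := Finset.ne_of_mem_erase hv
        by_cases hvi : ∀ i, f i ≠ v
        · have hcard := image_update_card f i₁ i₂ h12 hf v hvi
          have hle : (Finset.univ.image (Function.update f i₁ v)).card ≤ 4 := by
            refine (Finset.card_image_le).trans ?_
            simp
          obtain ⟨c, hc⟩ := ih _ (by omega) (Function.update f i₁ v) rfl
          exact ⟨q v * c, by rw [hc, smul_smul]⟩
        · push Not at hvi
          obtain ⟨i, hi⟩ := hvi
          obtain ⟨y, hy⟩ := hG i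
          have hyy : y ≠ y₀ := fun h => hv' (by rw [← hi, ← hy, h, hy₀])
          refine ⟨0, ?_⟩
          have : q v = 0 := by rw [← hi, ← hy, hqG, Pi.single_eq_of_ne hyy]
          rw [this, zero_smul, zero_smul]
      choose! c hc using hterm
      refine ⟨- ∑ v ∈ Finset.univ.erase (f i₁), c v, ?_⟩
      rw [neg_smul, Finset.sum_smul, ← Finset.sum_congr rfl hc]
      exact eq_neg_of_add_eq_zero_left hsum
  · exact ⟨0, by rw [zero_smul]; exact nonface' a f hex⟩

end Pool.Agent.Helper90.Aniso
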