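import Pool.Agent.Helper90.Aniso.Dual

/-!
# Two totally isotropic subspaces of the facet space
-/

namespace Pool.Agent.Helper90.Aniso

open Matrix

variable {L : Type*} [Field L] (a : Fin 4 → Fin 11 → L) (x : Fin 4 → L)

/-- The weights of the diagonal form on the facet space. -/
def kap (F : Fin 40) : L := (ori F : L) / ((facM a F).det * ∏ j, co a x F j)

theorem kap_ne (hg : Good a x) (F : Fin 40) : kap a x F ≠ 0 := by
  unfold kap
  apply div_ne_zero
  · intro h
    have h1 : (ori F : L) * ori F = 1 := by rw [← Int.cast_mul, ori_sq, Int.cast_one]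
    rw [h, zero_mul] at h1
    exact zero_ne_one h1
  · exact mul_ne_zero (hg.det_ne F) (Finset.prod_ne_zero_iff.2 fun i _ => hg.co_ne _ _)

theorem exists_x_ne (hg : Good a x) : ∃ i, x i ≠ 0 := by
  by_contra hcon
  push Not at hcon
  have hx : x = 0 := funext hcon
  apply hg.co_ne 0 0
  unfold co
  rw [hx, map_zero, Pi.zero_apply]

theorem quad_zero (hg : Good a x) (u v : Fin 11) :
    ∑ F, kap a x F * (facM a F).det ^ 2 * (cov a x F u * cov a x F v) = 0 := by
  obtain ⟨i, hi⟩ := exists_x_ne a x hg
  have h : ∑ w, a i w * csum a x ![u, v, w] = 0 := by simp [csum_zero a x hg]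
  unfold csum at h
  simp only [Finset.mul_sum] at h
  rw [Finset.sum_comm] at h
  have h1 : ∀ F, ∑ w, a i w * ((ori F : L) / (∏ j, co a x F j) *
      ∏ l, cov a x F ((![u, v, w] : Fin 3 → Fin 11) l)) =
      x i * (kap a x F * (facM a F).det ^ 2 * (cov a x F u * cov a x F v)) := by
    intro F
    have h2 : ∑ w, a i w * cov a x F w = (facM a F).det * x i := by
      rw [sum_cov]; exact co_sum a x F i
    have hd := hg.det_ne F
    have hp : ∏ j, co a x F j ≠ 0 := Finset.prod_ne_zero_iff.2 fun i _ => hg.co_ne _ _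
    calc _ = (ori F : L) / (∏ j, co a x F j) * (cov a x F u * cov a x F v) *
          ∑ w, a i w * cov a x F w := by
          rw [Finset.mul_sum]
          refine Finset.sum_congr rfl fun w _ => ?_
          rw [Fin.prod_univ_three]
          simp
          ring
      _ = _ := by
          rw [h2]
          unfold kap
          field_simp
  simp only [h1] at h
  rw [← Finset.mul_sum] at h
  exact (mul_eq_zero.1 h).resolve_left hi

/-- Evaluation of a linear function at the facets. -/
def t1 (g : Fin 11 → L) (F : Fin 40) : L := (facM a F).det * ∑ v, g v * cov a x F v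

/-- Evaluation of a twisted linear function at the facets. -/
def tL (g : Fin 11 → L) (F : Fin 40) : L :=
  (facM a F).det * ∑ v, ((eps (fac F 0) v : L) * g v) * cov a x F v

theorem sum_cov2 (F : Fin 40) (φ : Fin 11 → Fin 11 → L) :
    ∑ u, ∑ v, φ u v * (cov a x F u * cov a x F v) =
      ∑ j, ∑ k, φ (fac F j) (fac F k) * (co a x F j * co a x F k) := by
  calc ∑ u, ∑ v, φ u v * (cov a x F u * cov a x F v)
      = ∑ u, (∑ v, φ u v * cov a x F v) * cov a x F u := by
        refine Finset.sum_congr rfl fun u _ => ?_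
        rw [Finset.sum_mul]
        refine Finset.sum_congr rfl fun v _ => by ring
    _ = ∑ j, (∑ v, φ (fac F j) v * cov a x F v) * co a x F j :=
        sum_cov a x F (fun u => ∑ v, φ u v * cov a x F v)
    _ = ∑ j, (∑ k, φ (fac F j) (fac F k) * co a x F k) * co a x F j := by
        refine Finset.sum_congr rfl fun j _ => by rw [sum_cov]
    _ = _ := by
        refine Finset.sum_congr rfl fun j _ => ?_
        rw [Finset.sum_mul]
        refine Finset.sum_congr rfl fun v _ => by ring

theorem t1_iso (hg : Good a x) (g h : Fin 11 → L) :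
    ∑ F, kap a x F * t1 a x g F * t1 a x h F = 0 := by
  have h1 : ∀ F, kap a x F * t1 a x g F * t1 a x h F =
      ∑ u, ∑ v, g u * h v * (kap a x F * (facM a F).det ^ 2 * (cov a x F u * cov a x F v)) := by
    intro F
    unfold t1
    calc _ = kap a x F * (facM a F).det ^ 2 *
          ((∑ u, g u * cov a x F u) * ∑ v, h v * cov a x F v) := by ring
      _ = _ := by
        rw [Finset.sum_mul_sum, Finset.mul_sum]
        refine Finset.sum_congr rfl fun u _ => ?_
        rw [Finset.mul_sum]
        refine Finset.sum_congr rfl fun v _ => by ring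
  simp only [h1]
  rw [Finset.sum_comm]
  refine Finset.sum_eq_zero fun u _ => ?_
  rw [Finset.sum_comm]
  refine Finset.sum_eq_zero fun v _ => ?_
  rw [← Finset.mul_sum, quad_zero a x hg, mul_zero]

theorem tL_iso (hg : Good a x) (g h : Fin 11 → L) :
    ∑ F, kap a x F * tL a x g F * tL a x h F = 0 := by
  have h1 : ∀ F, kap a x F * tL a x g F * tL a x h F =
      ∑ u, ∑ v, (eps u v : L) * g u * h v *
        (kap a x F * (facM a F).det ^ 2 * (cov a x F u * cov a x F v)) := by
    intro F
    unfold tL
    calc _ = kap a x F * (facM a F).det ^ 2 *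
          ((∑ u, (eps (fac F 0) u * g u) * cov a x F u) *
            ∑ v, (eps (fac F 0) v * h v) * cov a x F v) := by ring
      _ = kap a x F * (facM a F).det ^ 2 *
          ∑ u, ∑ v, (((eps (fac F 0) u : L) * g u) * (eps (fac F 0) v * h v)) *
            (cov a x F u * cov a x F v) := by
        rw [Finset.sum_mul_sum]
        congr 1
        refine Finset.sum_congr rfl fun u _ => Finset.sum_congr rfl fun v _ => by ring
      _ = kap a x F * (facM a F).det ^ 2 *
          ∑ u, ∑ v, ((eps u v : L) * g u * h v) * (cov a x F u * cov a x F v) := by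
        rw [sum_cov2 a x F (fun u v => ((eps (fac F 0) u : L) * g u) * (eps (fac F 0) v * h v)),
          sum_cov2 a x F (fun u v => (eps u v : L) * g u * h v)]
        congr 1
        refine Finset.sum_congr rfl fun j _ => Finset.sum_congr rfl fun k _ => ?_
        rw [← eps_cocycle F 0 j k]
        push_cast
        ring
      _ = _ := by
        rw [Finset.mul_sum]
        refine Finset.sum_congr rfl fun u _ => ?_
        rw [Finset.mul_sum]
        refine Finset.sum_congr rfl fun v _ => by ring
  simp only [h1]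
  rw [Finset.sum_comm]
  refine Finset.sum_eq_zero fun u _ => ?_
  rw [Finset.sum_comm]
  refine Finset.sum_eq_zero fun v _ => ?_
  rw [← Finset.mul_sum, quad_zero a x hg, mul_zero]

theorem tL_inj (hg : Good a x) (h2 : (2 : L) ≠ 0) (g : Fin 11 → L)
    (h : ∀ F, tL a x g F = 0) : g = 0 := by
  have hz : ∀ F, ∃ z : Fin 4 → L, ∀ j, ∑ i, z i * a i (fac F j) =
      (eps (fac F 0) (fac F j) : L) * g (fac F j) := fun F =>
    exists_fun (facM a F) (hg.det_ne F) (fun j => (eps (fac F 0) (fac F j) : L) * g (fac F j))
  choose z hz using hz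
  have hzx : ∀ F, ∑ i, z F i * x i = 0 := by
    intro F
    have h1 := h F
    unfold tL at h1
    rw [sum_cov] at h1
    have h3 := (mul_eq_zero.1 h1).resolve_left (hg.det_ne F)
    simp only [← hz] at h3
    have h4 : ∑ j, (∑ i, z F i * a i (fac F j)) * co a x F j =
        (facM a F).det * ∑ i, z F i * x i := by
      rw [← sum_fun, sum_cov]
    rw [h4] at h3
    exact (mul_eq_zero.1 h3).resolve_left (hg.det_ne F)
  have hadj : ∀ F j, z F = (tsg F j : L) • z (nbr F j) := by
    intro F j
    have hB : ((facM a F).updateCol j x).det ≠ 0 := by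
      rw [← Matrix.cramer_apply]; exact hg.co_ne F j
    have h1 := fun_zero _ hB (z F - (tsg F j : L) • z (nbr F j)) (by
      intro k
      by_cases hk : k = j
      · subst hk
        simp only [Matrix.updateCol_self, Pi.sub_apply, Pi.smul_apply, smul_eq_mul, sub_mul,
          Finset.sum_sub_distrib, mul_assoc]
        rw [← Finset.mul_sum, hzx, hzx]
        ring
      · obtain ⟨i, hi⟩ := Fin.exists_succAbove_eq hk
        simp only [Matrix.updateCol_ne hk, facM, Matrix.of_apply, Pi.sub_apply, Pi.smul_apply,
          smul_eq_mul, sub_mul, Finset.sum_sub_distrib, mul_assoc]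
        rw [← Finset.mul_sum, hz]
        have h3 := hz (nbr F j) ((opp F j).succAbove i)
        rw [fac_nbr, hi] at h3
        rw [h3, ← hi]
        have h4 : (eps (fac F 0) (fac F (j.succAbove i)) : L) =
            tsg F j * eps (fac (nbr F j) 0) (fac F (j.succAbove i)) := by
          exact_mod_cast congrArg (Int.cast : ℤ → L) (eps_tsg F j i)
        rw [h4]
        ring)
    exact sub_eq_zero.1 h1
  have htree : ∀ m : ℕ, ∀ F, depF F = m → z F = (fsg F : L) • z 0 := by
    intro m
    induction m using Nat.strong_induction_on with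
    | _ m ih =>
      intro F hF
      rcases fsg_tree F with h1 | ⟨h1, h3⟩
      · rw [h1, fsg_zero]; simp
      · rw [hadj F (nxtF F), ih _ (hF ▸ h1) _ rfl, h3, smul_smul]
        push_cast
        rfl
  have hz0 : z 0 = 0 := by
    have hb := fsg_bad
    have hsq : ∀ F, (fsg F : L) * fsg F = 1 := fun F => by
      rw [← Int.cast_mul, fsg_sq, Int.cast_one]
    have h1 := htree _ (13 : Fin 40) rfl
    have h3 := hadj (13 : Fin 40) (0 : Fin 4)
    rw [htree _ (nbr (13 : Fin 40) (0 : Fin 4)) rfl, smul_smul] at h3
    have h4 : ((fsg (13 : Fin 40) : ℤ) : L) = - ((tsg (13 : Fin 40) (0 : Fin 4) : L) * fsg (nbr (13 : Fin 40) (0 : Fin 4))) := by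
      exact_mod_cast congrArg (Int.cast : ℤ → L) hb
    have h5 : z (13 : Fin 40) = - ((fsg (13 : Fin 40) : L) • z 0) := by
      rw [h4, h3, neg_smul, neg_neg]
    rw [← h1] at h5
    have h6 : (2 : L) • z (13 : Fin 40) = 0 := by
      rw [two_smul]
      nth_rewrite 1 [h5]
      simp
    have h7 : z (13 : Fin 40) = 0 := (smul_eq_zero.1 h6).resolve_left h2
    have h8 : z 0 = (fsg (13 : Fin 40) : L) • z (13 : Fin 40) := by
      rw [h1, smul_smul, hsq, one_smul]
    rw [h8, h7, smul_zero]
  funext v
  obtain ⟨j, hj⟩ := vert_mem v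
  have h1 := hz (baseV v) j
  rw [htree _ _ rfl, hz0, smul_zero, hj] at h1
  simp only [Pi.zero_apply, zero_mul, Finset.sum_const_zero] at h1
  have h3 : (eps (fac (baseV v) 0) v : L) * eps (fac (baseV v) 0) v = 1 := by
    rw [← Int.cast_mul, eps_sq, Int.cast_one]
  calc g v = (eps (fac (baseV v) 0) v : L) * ((eps (fac (baseV v) 0) v : L) * g v) := by
        rw [← mul_assoc, h3, one_mul]
    _ = 0 := by rw [← h1, mul_zero]

theorem t1_ker (hg : Good a x) : ∃ g : Fin 11 → L, g ≠ 0 ∧ ∀ F, t1 a x g F = 0 := by
  obtain ⟨w, hw1, hw2⟩ := exists_fun_facet a x hg 0 0 (Pi.single 1 1)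
  refine ⟨fun v => ∑ i, w i * a i v, ?_, fun F => ?_⟩
  · intro h
    have h1 := hw2 1 (by decide)
    have h3 := congrFun h (fac 0 1)
    simp only [Pi.zero_apply] at h3
    rw [h3, Pi.single_eq_same] at h1
    exact zero_ne_one h1
  · unfold t1
    rw [sum_fun, hw1]
    simp

end Pool.Agent.Helper90.Aniso
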